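import Mathlib
import Pool.Agent.TH729.SQ.Values

/-!
# Saturated subsets for a semialgebraic equivalence relation with finitely many classes
-/

set_option autoImplicit false

open Filter Topology Set Pool.Agent.H581R2 Pool.Agent.TH729.SQ

namespace Run7.h18.FO

/-- the relation is semialgebraic -/
def RelSA {N : ℕ} (E : (Fin N → ℝ) → (Fin N → ℝ) → Prop) : Prop :=
  SAP (fun w : Fin N ⊕ Fin N → ℝ => E (fun i => w (Sum.inl i)) (fun i => w (Sum.inr i)))

/-- the properties of the relation on the set `Y` -/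
structure Ok {N : ℕ} (E : (Fin N → ℝ) → (Fin N → ℝ) → Prop) (Y : Set (Fin N → ℝ)) : Prop where
  sa : SA Y
  lc : IsLocallyClosed Y
  stable : ∀ x ∈ Y, ∀ y, E x y → y ∈ Y
  refl : ∀ x ∈ Y, E x x
  symm : ∀ x ∈ Y, ∀ y, E x y → E y x
  trans : ∀ x ∈ Y, ∀ y z, E x y → E y z → E x z
  sc : ∀ x ∈ Y, IsSigmaCompact {y | E x y}
  cont : ∀ x ∈ Y, ∀ y, E x y → ∀ V ∈ 𝓝 y, ∀ᶠ z in 𝓝 x, ∃ w ∈ V, E z w

/-- the points whose class contains a neighbourhood in `Y` -/
def Op {N : ℕ} (E : (Fin N → ℝ) → (Fin N → ℝ) → Prop) (Y : Set (Fin N → ℝ)) : Set (Fin N → ℝ) :=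
  {y | y ∈ Y ∧ ∀ᶠ z in 𝓝 y, z ∈ Y → E y z}

variable {N : ℕ} {E : (Fin N → ℝ) → (Fin N → ℝ) → Prop} {Y : Set (Fin N → ℝ)}

theorem op_sa (hE : RelSA E) (h : Ok E Y) : SA (Op E Y) := by
  have h1 : SAP (fun y : Fin N → ℝ => ∃ ε : ℝ, 0 < ε ∧ ¬ ∃ z : Fin N → ℝ,
      ((∀ i, y i - z i < ε ∧ z i - y i < ε) ∧ z ∈ Y) ∧ ¬ E y z) := by
    refine SAP.exists' (p := fun (y : Fin N → ℝ) ε => 0 < ε ∧ ¬ ∃ z : Fin N → ℝ,
      ((∀ i, y i - z i < ε ∧ z i - y i < ε) ∧ z ∈ Y) ∧ ¬ E y z)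
      ((SAP.pos (PF.coord _)).and (SAP.not ?_))
    refine SAP.congr (SAP.exists_fun (Fin N) (Option (Fin N)) (fun w =>
      ((∀ i, w (Sum.inr (some i)) - w (Sum.inl i) < w (Sum.inr none) ∧
        w (Sum.inl i) - w (Sum.inr (some i)) < w (Sum.inr none)) ∧
        (fun i => w (Sum.inl i)) ∈ Y) ∧
        ¬ E (fun i => w (Sum.inr (some i))) (fun i => w (Sum.inl i))) ?_) fun v => Iff.rfl
    refine SAP.and (SAP.and (SAP.forall_fin fun i => ?_) ?_) (SAP.not ?_)
    · exact (SAP.lt ((PF.coord _).sub (PF.coord _)) (PF.coord _)).and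
        (SAP.lt ((PF.coord _).sub (PF.coord _)) (PF.coord _))
    · exact SAP.preimage (p := fun v => v ∈ Y) h.sa (fun i => PF.coord _)
    · exact SAP.preimage (κ := Fin N ⊕ Fin N)
        (p := fun w => E (fun i => w (Sum.inl i)) (fun i => w (Sum.inr i))) hE
        (φ := fun (w : Fin N ⊕ Option (Fin N) → ℝ) s =>
          Sum.elim (fun i => w (Sum.inr (some i))) (fun i => w (Sum.inl i)) s)
        (fun s => by
          rcases s with s | s
          · exact PF.coord _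
          · exact PF.coord _)
  refine SAP.congr (SAP.and (p := fun y => y ∈ Y) h.sa h1) fun y => ?_
  refine and_congr_right fun _ => ?_
  rw [Metric.eventually_nhds_iff]
  refine exists_congr fun ε => and_congr_right fun hε => ?_
  rw [not_exists]
  refine forall_congr' fun z => ?_
  rw [dist_pi_lt_iff hε]
  have e1 : (∀ i, dist (z i) (y i) < ε) ↔ ∀ i, y i - z i < ε ∧ z i - y i < ε := by
    refine forall_congr' fun i => ?_
    rw [Real.dist_eq, abs_lt]
    constructor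
    · rintro ⟨h1, h2⟩
      constructor <;> linarith
    · rintro ⟨h1, h2⟩
      constructor <;> linarith
  rw [e1]
  tauto

theorem op_stable (h : Ok E Y) {y y' : Fin N → ℝ} (hy : y ∈ Op E Y) (hE : E y y') :
    y' ∈ Op E Y := by
  obtain ⟨hyY, hn⟩ := hy
  have hy' : y' ∈ Y := h.stable y hyY y' hE
  have hb : E y' y := h.symm y hyY y' hE
  refine ⟨hy', ?_⟩
  filter_upwards [h.cont y' hy' y hb _ hn] with z hz hzY
  obtain ⟨w, hw, hzw⟩ := hz
  have hwY : w ∈ Y := h.stable z hzY w hzw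
  have h1 : E y w := hw hwY
  have h2 : E w z := h.symm z hzY w hzw
  exact h.trans y' hy' y z hb (h.trans y hyY w z h1 h2)

theorem op_open (h : Ok E Y) {y : Fin N → ℝ} (hy : y ∈ Op E Y) :
    ∀ᶠ z in 𝓝 y, z ∈ Y → z ∈ Op E Y := by
  filter_upwards [hy.2] with z hz hzY
  exact op_stable h hy (hz hzY)

theorem op_compl (hE : RelSA E) (h : Ok E Y) : Ok E (Y \ Op E Y) where
  sa := by
    have := h.sa.inter (op_sa hE h).compl
    exact this
  lc := by
    have e1 : Y \ Op E Y = Y ∩ (interior {z | z ∈ Y → z ∈ Op E Y})ᶜ := by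
      ext z
      constructor
      · rintro ⟨h1, h2⟩
        exact ⟨h1, fun h3 => h2 (interior_subset h3 h1)⟩
      · rintro ⟨h1, h2⟩
        refine ⟨h1, fun h3 => h2 ?_⟩
        rw [mem_interior_iff_mem_nhds]
        exact op_open h h3
    rw [e1]
    exact h.lc.inter isOpen_interior.isClosed_compl.isLocallyClosed
  stable := fun x hx y hxy => ⟨h.stable x hx.1 y hxy, fun hy =>
    hx.2 (op_stable h hy (h.symm x hx.1 y hxy))⟩
  refl := fun x hx => h.refl x hx.1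
  symm := fun x hx => h.symm x hx.1
  trans := fun x hx => h.trans x hx.1
  sc := fun x hx => h.sc x hx.1
  cont := fun x hx => h.cont x hx.1

/-- Baire -/
theorem op_nonempty (h : Ok E Y) (hne : Y.Nonempty) (F : Finset (Fin N → ℝ)) (hF : ∀ x ∈ F, x ∈ Y)
    (hc : ∀ y ∈ Y, ∃ x ∈ F, E x y) : (Op E Y).Nonempty := by
  classical
  have : Nonempty Y := hne.to_subtype
  have : LocallyCompactSpace Y := h.lc.locallyCompactSpace
  have hK : ∀ x : F, ∃ K : ℕ → Set (Fin N → ℝ), (∀ n, IsCompact (K n)) ∧ ⋃ n, K n = {y | E x.1 y} :=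
    fun x => h.sc x.1 (hF x.1 x.2)
  choose K hK1 hK2 using hK
  have hB := nonempty_interior_of_iUnion_of_closed (X := Y) (ι := F × ℕ)
    (f := fun i => Subtype.val ⁻¹' (K i.1 i.2))
    (fun i => (hK1 i.1 i.2).isClosed.preimage continuous_subtype_val) (by
      rw [eq_univ_iff_forall]
      rintro ⟨y, hy⟩
      obtain ⟨x, hx, hxy⟩ := hc y hy
      have h1 : y ∈ ⋃ n, K ⟨x, hx⟩ n := by
        rw [hK2]
        exact hxy
      obtain ⟨n, hn⟩ := mem_iUnion.1 h1
      exact mem_iUnion.2 ⟨(⟨x, hx⟩, n), hn⟩)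
  obtain ⟨⟨x, n⟩, ⟨y, hy⟩, hyi⟩ := hB
  have hxY := hF x.1 x.2
  have hsub : K x n ⊆ {z | E x.1 z} := by
    rw [← hK2]
    exact subset_iUnion (K x) n
  have hn : Subtype.val ⁻¹' (K x n) ∈ 𝓝 (⟨y, hy⟩ : Y) := mem_interior_iff_mem_nhds.1 hyi
  rw [nhds_subtype_eq_comap] at hn
  obtain ⟨V, hV, hVs⟩ := hn
  have hyV : y ∈ V := mem_of_mem_nhds hV
  have hxy : E x.1 y := hsub (hVs (a := ⟨y, hy⟩) hyV)
  refine ⟨y, hy, ?_⟩
  filter_upwards [hV] with z hz hzY
  have hxz : E x.1 z := hsub (hVs (a := ⟨z, hzY⟩) hz)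
  exact h.trans y hy x.1 z (h.symm x.1 hxY y hxy) hxz

theorem sat_sa (hE : RelSA E) (n : ℕ) : ∀ Y : Set (Fin N → ℝ), Ok E Y →
    (∃ F : Finset (Fin N → ℝ), F.card ≤ n ∧ (∀ x ∈ F, x ∈ Y) ∧ ∀ y ∈ Y, ∃ x ∈ F, E x y) →
    ∀ W : Set (Fin N → ℝ), W ⊆ Y → (∀ x ∈ W, ∀ y, E x y → y ∈ W) → SA W := by
  classical
  induction n with
  | zero =>
    rintro Y h ⟨F, hF1, hF2, hF3⟩ W hW hs
    have : W = ∅ := by
      rw [eq_empty_iff_forall_notMem]
      intro x hx
      obtain ⟨z, hz, -⟩ := hF3 x (hW hx)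
      have : F = ∅ := by
        rw [← Finset.card_eq_zero]
        omega
      rw [this] at hz
      simp at hz
    rw [this]
    exact SA.empty
  | succ n ih =>
    rintro Y h ⟨F, hF1, hF2, hF3⟩ W hW hs
    rcases Y.eq_empty_or_nonempty with hY | hY
    · have : W = ∅ := subset_empty_iff.1 (hY ▸ hW)
      rw [this]
      exact SA.empty
    obtain ⟨y, hy⟩ := op_nonempty h hY F hF2 hF3
    obtain ⟨x, hxF, hxy⟩ := hF3 y hy.1
    have hx : x ∈ Op E Y := op_stable h hy (h.symm x (hF2 x hxF) y hxy)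
    have h2 := op_compl hE h
    have h3 : SA (W \ Op E Y) := by
      refine ih (Y \ Op E Y) h2 ⟨F.filter (· ∈ Y \ Op E Y), ?_, ?_, ?_⟩ (W \ Op E Y)
        (fun z hz => ⟨hW hz.1, hz.2⟩) ?_
      · have h4 : F.filter (· ∈ Y \ Op E Y) ⊆ F.erase x := by
          intro z hz
          rw [Finset.mem_filter] at hz
          rw [Finset.mem_erase]
          exact ⟨fun e => hz.2.2 (e ▸ hx), hz.1⟩
        have h5 := Finset.card_le_card h4
        rw [Finset.card_erase_of_mem hxF] at h5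
        omega
      · intro z hz
        exact (Finset.mem_filter.1 hz).2
      · intro z hz
        obtain ⟨w, hw, hwz⟩ := hF3 z hz.1
        refine ⟨w, Finset.mem_filter.2 ⟨hw, hF2 w hw, fun hwO => hz.2 (op_stable h hwO hwz)⟩, hwz⟩
      · intro z hz w hzw
        exact ⟨hs z hz.1 w hzw, fun hw => hz.2 (op_stable h hw (h.symm z (hW hz.1) w hzw))⟩
    have h4 : SA (W ∩ Op E Y) := by
      refine sa_of_lc (Fin N) (Op E Y) (W ∩ Op E Y) (op_sa hE h) inter_subset_right ?_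
      intro z hz
      have h5 : ∀ᶠ v in 𝓝[Op E Y] z, v ∈ Y → E z v := hz.2.filter_mono nhdsWithin_le_nhds
      filter_upwards [h5, self_mem_nhdsWithin] with v hv hvO
      have hzv : E z v := hv hvO.1
      constructor
      · intro hvW
        exact ⟨hs v hvW.1 z (h.symm z hz.1 v hzv), hz⟩
      · intro hzW
        exact ⟨hs z hzW.1 v hzv, hvO⟩
    have h5 : W = (W ∩ Op E Y) ∪ (W \ Op E Y) := (inter_union_sdiff W (Op E Y)).symm
    rw [h5]
    exact h4.union h3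

end Run7.h18.FO
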