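import Mathlib
import Pool.Agent.Run7.h18.FO.A

/-!
# Rational families of self-maps parametrised by varieties with dense rational points
-/

set_option autoImplicit false

open Filter Topology Set MvPolynomial Pool.Agent.H581R2 Pool.Agent.TH729.SQ

namespace Run7.h18.FO

/-- The real points of the variety `X = {p = 0, g ≠ 0}`. -/
def Pts {N c : ℕ} (p : Fin c → MvPolynomial (Fin N) ℚ) (g : MvPolynomial (Fin N) ℚ) :
    Set (Fin N → ℝ) :=
  {x | (∀ i, aeval x (p i) = (0 : ℝ)) ∧ aeval x g ≠ (0 : ℝ)}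

/-- The rational points of the variety `X = {p = 0, g ≠ 0}`, as real points. -/
def RatPts {N c : ℕ} (p : Fin c → MvPolynomial (Fin N) ℚ) (g : MvPolynomial (Fin N) ℚ) :
    Set (Fin N → ℝ) :=
  {x | x ∈ Pts p g ∧ ∃ r : Fin N → ℚ, x = fun i => (r i : ℝ)}

/-- A rational family `Φ(t, x) = P(t, x) / D(t, x)` of self-maps of `X = {p = 0, g ≠ 0}`, defined for `D(t, x) ≠ 0`. The
parameters `t` are the real points of a variety `B = {b = 0, h ≠ 0}` over `ℚ` whose rational points are dense in its real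
points; `Φ(t, x)` lies on `X` for all real points `t` of `B` and `x` of `X` with `D(t, x) ≠ 0`. -/
structure Family {N c : ℕ} (p : Fin c → MvPolynomial (Fin N) ℚ) (g : MvPolynomial (Fin N) ℚ) where
  M : ℕ
  e : ℕ
  b : Fin e → MvPolynomial (Fin M) ℚ
  h : MvPolynomial (Fin M) ℚ
  dense : Pts b h ⊆ closure (RatPts b h)
  P : Fin N → MvPolynomial (Fin M ⊕ Fin N) ℚ
  D : MvPolynomial (Fin M ⊕ Fin N) ℚ
  maps : ∀ t ∈ Pts b h, ∀ x ∈ Pts p g, aeval (Sum.elim t x) D ≠ (0 : ℝ) →
    (fun j => (aeval (Sum.elim t x) (P j) / aeval (Sum.elim t x) D : ℝ)) ∈ Pts p g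

/-- `y = Φ_k(t, x)` for one of the families `Φ_1, …, Φ_q` and a real parameter `t`. -/
def Moves {N c : ℕ} {p : Fin c → MvPolynomial (Fin N) ℚ} {g : MvPolynomial (Fin N) ℚ} {q : ℕ}
    (F : Fin q → Family p g) (x y : Fin N → ℝ) : Prop :=
  ∃ k, ∃ t ∈ Pts (F k).b (F k).h, aeval (Sum.elim t x) (F k).D ≠ (0 : ℝ) ∧
    y = fun j => (aeval (Sum.elim t x) ((F k).P j) / aeval (Sum.elim t x) (F k).D : ℝ)

theorem cont_aeval {ι : Type} (q : MvPolynomial ι ℚ) :
    Continuous (fun x : ι → ℝ => (aeval x q : ℝ)) := by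
  have h : (fun x : ι → ℝ => (aeval x q : ℝ)) = fun x => eval x (map (algebraMap ℚ ℝ) q) := by
    funext x
    rw [aeval_def, eval_map]
  rw [h]
  exact continuous_eval _

variable {N c : ℕ} {p : Fin c → MvPolynomial (Fin N) ℚ} {g : MvPolynomial (Fin N) ℚ}

theorem lc_pts (p : Fin c → MvPolynomial (Fin N) ℚ) (g : MvPolynomial (Fin N) ℚ) :
    IsLocallyClosed (Pts p g) := by
  have h1 : Pts p g = (⋂ i, {x : Fin N → ℝ | (aeval x (p i) : ℝ) = 0}) ∩
      {x : Fin N → ℝ | (aeval x g : ℝ) ≠ 0} := by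
    ext x
    simp [Pts]
  rw [h1]
  refine IsLocallyClosed.inter (IsClosed.isLocallyClosed ?_) (IsOpen.isLocallyClosed ?_)
  · exact isClosed_iInter fun i => isClosed_eq (cont_aeval (p i)) continuous_const
  · exact isOpen_ne_fun (cont_aeval g) continuous_const

theorem sa_pts (p : Fin c → MvPolynomial (Fin N) ℚ) (g : MvPolynomial (Fin N) ℚ) :
    SA (Pts p g) :=
  SAP.and (SAP.forall_fin fun i => SAP.eq_zero (PF.aeval (p i)))
    (SAP.not (SAP.eq_zero (PF.aeval g)))

theorem sc_lc {n : ℕ} {S : Set (Fin n → ℝ)} (h : IsLocallyClosed S) : IsSigmaCompact S := by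
  have h1 : LocallyCompactSpace S := h.locallyCompactSpace
  have h2 : SigmaCompactSpace S := inferInstance
  exact isSigmaCompact_iff_sigmaCompactSpace.2 h2

theorem sc_moves {q : ℕ} (F : Fin q → Family p g) (x : Fin N → ℝ) :
    IsSigmaCompact {y | Moves F x y} := by
  have h1 : {y | Moves F x y} = ⋃ k, (fun t : Fin (F k).M → ℝ => fun j =>
      (aeval (Sum.elim t x) ((F k).P j) / aeval (Sum.elim t x) (F k).D : ℝ)) ''
        (Pts (F k).b (F k).h ∩ {t | (aeval (Sum.elim t x) (F k).D : ℝ) ≠ 0}) := by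
    ext y
    simp only [mem_ofPred_eq, mem_iUnion, mem_image, Moves]
    refine exists_congr fun k => exists_congr fun t => ?_
    constructor
    · rintro ⟨h1, h2, h3⟩
      exact ⟨⟨h1, h2⟩, h3.symm⟩
    · rintro ⟨⟨h1, h2⟩, h3⟩
      exact ⟨h1, h2, h3.symm⟩
  rw [h1]
  refine isSigmaCompact_iUnion _ fun k => ?_
  have hc : Continuous fun t : Fin (F k).M → ℝ => (Sum.elim t x : Fin (F k).M ⊕ Fin N → ℝ) := by
    refine continuous_pi fun s => ?_
    rcases s with s | s
    · exact continuous_apply s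
    · exact continuous_const
  refine IsSigmaCompact.image_of_continuousOn (sc_lc ?_) ?_
  · exact (lc_pts _ _).inter
      (isOpen_ne_fun ((cont_aeval (F k).D).comp hc) continuous_const).isLocallyClosed
  · refine continuousOn_pi.2 fun j => ?_
    exact ContinuousOn.div ((cont_aeval ((F k).P j)).comp hc).continuousOn
      ((cont_aeval (F k).D).comp hc).continuousOn fun t ht => ht.2

theorem cont_moves {q : ℕ} (F : Fin q → Family p g) (x y : Fin N → ℝ) (h : Moves F x y) :
    ∀ V ∈ 𝓝 y, ∀ᶠ z in 𝓝 x, ∃ w ∈ V, Moves F z w := by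
  intro V hV
  obtain ⟨k, t, ht, hD, rfl⟩ := h
  have hc : Continuous fun z : Fin N → ℝ => (Sum.elim t z : Fin (F k).M ⊕ Fin N → ℝ) := by
    refine continuous_pi fun s => ?_
    rcases s with s | s
    · exact continuous_const
    · exact continuous_apply s
  have hcD := ((cont_aeval (F k).D).comp hc).continuousAt (x := x)
  have h1 : ∀ᶠ z in 𝓝 x, (aeval (Sum.elim t z) (F k).D : ℝ) ≠ 0 := hcD.eventually_ne hD
  have h2 : ContinuousAt (fun z : Fin N → ℝ => fun j =>
      (aeval (Sum.elim t z) ((F k).P j) / aeval (Sum.elim t z) (F k).D : ℝ)) x :=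
    continuousAt_pi.2 fun j => ContinuousAt.div
      ((cont_aeval ((F k).P j)).comp hc).continuousAt hcD hD
  filter_upwards [h1, h2 hV] with z hz1 hz2
  exact ⟨_, hz2, k, t, ht, hz1, rfl⟩

theorem pf_at {ι κ : Type} (q : MvPolynomial κ ℚ) (f : κ → ι) :
    PF (fun u : ι → ℝ => (aeval (fun j => u (f j)) q : ℝ)) :=
  (PF.aeval q).comp (φ := fun (u : ι → ℝ) j => u (f j)) (fun _ => PF.coord _)

theorem sa_moves {q : ℕ} (F : Fin q → Family p g) : RelSA (Moves F) := by
  refine SAP.exists_fin fun k => ?_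
  let f : Fin (F k).M ⊕ Fin N → Fin (F k).M ⊕ (Fin N ⊕ Fin N) :=
    Sum.elim Sum.inl (fun i => Sum.inr (Sum.inl i))
  have h1 : SAP (fun u : Fin (F k).M ⊕ (Fin N ⊕ Fin N) → ℝ =>
      ((∀ i, (aeval (fun j => u (Sum.inl j)) ((F k).b i) : ℝ) = 0) ∧
        ¬ (aeval (fun j => u (Sum.inl j)) (F k).h : ℝ) = 0) ∧
      (¬ (aeval (fun s => u (f s)) (F k).D : ℝ) = 0) ∧
      ∀ j, u (Sum.inr (Sum.inr j)) * aeval (fun s => u (f s)) (F k).D =
        aeval (fun s => u (f s)) ((F k).P j)) :=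
    SAP.and (SAP.and (SAP.forall_fin fun i => SAP.eq_zero (pf_at _ _))
      (SAP.not (SAP.eq_zero (pf_at _ _))))
      (SAP.and (SAP.not (SAP.eq_zero (pf_at _ _)))
        (SAP.forall_fin fun j => SAP.eq ((PF.coord _).mul (pf_at _ _)) (pf_at _ _)))
  have h2 := SAP.exists_fun (Fin (F k).M) (Fin N ⊕ Fin N) _ h1
  refine SAP.congr h2 fun w => ?_
  refine exists_congr fun t => ?_
  have h7 : (fun s => (Sum.elim t w : Fin (F k).M ⊕ (Fin N ⊕ Fin N) → ℝ) (f s)) =
      Sum.elim t (fun i => w (Sum.inl i)) := by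
    funext s
    rcases s with s | s <;> rfl
  rw [h7]
  refine and_congr Iff.rfl (and_congr_right fun hD => ?_)
  rw [funext_iff]
  refine forall_congr' fun j => ?_
  rw [eq_div_iff hD]
  exact Iff.rfl

/-- the closure of the set of the rational points is stable -/
theorem stable_closure {q : ℕ} (F : Fin q → Family p g) {x y : Fin N → ℝ}
    (hx : x ∈ closure (RatPts p g)) (h : Moves F x y) : y ∈ closure (RatPts p g) := by
  obtain ⟨k, t, ht, hD, rfl⟩ := h
  have ht' := (F k).dense ht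
  set U : Set ((Fin (F k).M → ℝ) × (Fin N → ℝ)) := {u | (aeval (Sum.elim u.1 u.2) (F k).D : ℝ) ≠ 0}
    with hU
  have hc : Continuous fun u : (Fin (F k).M → ℝ) × (Fin N → ℝ) =>
      (Sum.elim u.1 u.2 : Fin (F k).M ⊕ Fin N → ℝ) := by
    refine continuous_pi fun s => ?_
    rcases s with s | s
    · exact (continuous_apply s).comp continuous_fst
    · exact (continuous_apply s).comp continuous_snd
  have hUo : IsOpen U := isOpen_ne_fun ((cont_aeval (F k).D).comp hc) continuous_const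
  have h1 : (t, x) ∈ closure (U ∩ (RatPts (F k).b (F k).h ×ˢ RatPts p g)) := by
    refine hUo.inter_closure ⟨hD, ?_⟩
    rw [closure_prod_eq]
    exact ⟨ht', hx⟩
  have h2 : ContinuousAt (fun u : (Fin (F k).M → ℝ) × (Fin N → ℝ) => fun j =>
      (aeval (Sum.elim u.1 u.2) ((F k).P j) / aeval (Sum.elim u.1 u.2) (F k).D : ℝ)) (t, x) :=
    continuousAt_pi.2 fun j => ContinuousAt.div
      ((cont_aeval ((F k).P j)).comp hc).continuousAt ((cont_aeval (F k).D).comp hc).continuousAt hD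
  have h3 := mem_closure_image h2 h1
  refine closure_mono ?_ h3
  rintro _ ⟨⟨t', z⟩, ⟨hu, ⟨ht1, r, hr⟩, ⟨hz1, s, hs⟩⟩, rfl⟩
  simp only at hr hs ht1 hz1
  refine ⟨(F k).maps t' ht1 z hz1 hu, fun j => eval (Sum.elim r s) ((F k).P j) /
    eval (Sum.elim r s) (F k).D, ?_⟩
  have e1 : (Sum.elim t' z : Fin (F k).M ⊕ Fin N → ℝ) = fun i => ((Sum.elim r s i : ℚ) : ℝ) := by
    funext i
    rcases i with i | i
    · rw [hr]; rfl
    · rw [hs]; rfl
  funext j
  simp only
  rw [e1, aeval_cast, aeval_cast]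
  push_cast
  rfl

/-- The relation `Moves` is, on the part `U = X(ℝ) \ Z` of the real points, an equivalence relation with finitely many
classes, and `U` is stable. -/
structure FinitelyManyClasses {q : ℕ} (F : Fin q → Family p g) (Z : Set (Fin N → ℝ)) : Prop where
  stable : ∀ x ∈ Pts p g \ Z, ∀ y, Moves F x y → y ∉ Z
  refl : ∀ x ∈ Pts p g \ Z, Moves F x x
  symm : ∀ x ∈ Pts p g \ Z, ∀ y, Moves F x y → Moves F y x
  trans : ∀ x ∈ Pts p g \ Z, ∀ y z, Moves F x y → Moves F y z → Moves F x z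
  finite : ∃ A : Set (Fin N → ℝ), A.Finite ∧ A ⊆ Pts p g \ Z ∧ ∀ y ∈ Pts p g \ Z, ∃ x ∈ A, Moves F x y

theorem ok_of {q : ℕ} {F : Fin q → Family p g} {Z : Set (Fin N → ℝ)} (hZ : SA Z) (hZc : IsClosed Z)
    (h : FinitelyManyClasses F Z) : Ok (Moves F) (Pts p g \ Z) where
  sa := (sa_pts p g).inter hZ.compl
  lc := (lc_pts p g).inter hZc.isOpen_compl.isLocallyClosed
  stable := fun x hx y hxy => ⟨by
    obtain ⟨k, t, ht, hD, rfl⟩ := hxy
    exact (F k).maps t ht x hx.1 hD, h.stable x hx y hxy⟩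
  refl := h.refl
  symm := h.symm
  trans := h.trans
  sc := fun x _ => sc_moves F x
  cont := fun x _ y hxy => cont_moves F x y hxy

theorem sat_main {q : ℕ} {F : Fin q → Family p g} {Z : Set (Fin N → ℝ)} (hZ : SA Z)
    (hZc : IsClosed Z) (h : FinitelyManyClasses F Z) (W : Set (Fin N → ℝ)) (hW : W ⊆ Pts p g \ Z)
    (hs : ∀ x ∈ W, ∀ y, Moves F x y → y ∈ W) : SA W := by
  obtain ⟨A, hA, hA1, hA2⟩ := h.finite
  exact sat_sa (sa_moves F) hA.toFinset.card _ (ok_of hZ hZc h)
    ⟨hA.toFinset, le_rfl, fun x hx => hA1 (hA.mem_toFinset.1 hx), fun y hy => by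
      obtain ⟨x, hx, hxy⟩ := hA2 y hy
      exact ⟨x, hA.mem_toFinset.2 hx, hxy⟩⟩ W hW hs

theorem closure_main {q : ℕ} {F : Fin q → Family p g} {Z : Set (Fin N → ℝ)} (hZ : SA Z)
    (hZc : IsClosed Z) (h : FinitelyManyClasses F Z) (hb : SA (closure (RatPts p g ∩ Z))) :
    SA (closure (RatPts p g)) := by
  have h1 : SA (closure (RatPts p g) ∩ (Pts p g \ Z)) := by
    refine sat_main hZ hZc h _ inter_subset_right fun x hx y hxy => ?_
    exact ⟨stable_closure F hx.1 hxy, (ok_of hZ hZc h).stable x hx.2 y hxy⟩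
  have h2 : closure (RatPts p g) = closure (closure (RatPts p g) ∩ (Pts p g \ Z)) ∪
      closure (RatPts p g ∩ Z) := by
    apply Subset.antisymm
    · rw [← closure_union]
      apply closure_mono
      intro x hx
      by_cases hxZ : x ∈ Z
      · exact Or.inr ⟨hx, hxZ⟩
      · exact Or.inl ⟨subset_closure hx, hx.1, hxZ⟩
    · exact union_subset (closure_minimal inter_subset_left isClosed_closure)
        (closure_mono inter_subset_left)
  rw [h2]
  exact (SA.closure h1).union hb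

/-- slices -/
theorem slice_main {q : ℕ} (F : Fin q → Family p g) {Z D : Set (Fin N → ℝ)} (hD : D ⊆ RatPts p g)
    (hDs : SA (closure D)) (h : ∀ y ∈ RatPts p g \ Z, ∃ x ∈ closure D ∩ Pts p g, Moves F x y)
    (hb : SA (closure (RatPts p g ∩ Z))) : SA (closure (RatPts p g)) := by
  have h1 : SAP (fun w : Fin N ⊕ Fin N → ℝ =>
      ((fun i => w (Sum.inl i)) ∈ closure D ∧ (fun i => w (Sum.inl i)) ∈ Pts p g) ∧
        Moves F (fun i => w (Sum.inl i)) (fun i => w (Sum.inr i))) :=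
    SAP.and (SAP.and (SAP.preimage (p := fun v => v ∈ closure D) hDs (fun i => PF.coord _))
      (SAP.preimage (p := fun v => v ∈ Pts p g) (sa_pts p g) (fun i => PF.coord _))) (sa_moves F)
  have h2 : SA {y : Fin N → ℝ | ∃ x : Fin N → ℝ, (x ∈ closure D ∧ x ∈ Pts p g) ∧ Moves F x y} :=
    SAP.congr (SAP.exists_fun (Fin N) (Fin N) _ h1) fun v => Iff.rfl
  have h3 : closure (RatPts p g) =
      closure {y : Fin N → ℝ | ∃ x : Fin N → ℝ, (x ∈ closure D ∧ x ∈ Pts p g) ∧ Moves F x y} ∪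
      closure (RatPts p g ∩ Z) := by
    apply Subset.antisymm
    · rw [← closure_union]
      apply closure_mono
      intro y hy
      by_cases hyZ : y ∈ Z
      · exact Or.inr ⟨hy, hyZ⟩
      · obtain ⟨x, hx, hxy⟩ := h y ⟨hy, hyZ⟩
        exact Or.inl ⟨x, hx, hxy⟩
    · refine union_subset (closure_minimal ?_ isClosed_closure) (closure_mono inter_subset_left)
      rintro y ⟨x, ⟨hx, -⟩, hxy⟩
      exact stable_closure F (closure_mono hD hx) hxy
  rw [h3]
  exact (SA.closure h2).union hb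

end Run7.h18.FO
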