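import Mathlib
import Pool.Agent.R847.QB.Meyer
import Pool.Agent.R847.QB.Dir

/-!
# Diagonal forms in four variables: from the local conditions at finitely many primes to a rational zero
-/

set_option autoImplicit false

namespace Run7.h18.FO

open Pool.Agent.W313.BMX (Splits splits_swap splits_comm splits_mul_sq splits_neg_mul)
open Pool.Agent.R847.QB

/-- from an isotropic vector to the common value -/
theorem split4 {F : Type} [Field F] [CharZero F] (a : Fin 4 → F) (ha : ∀ i, a i ≠ 0)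
    (h : ∃ x : Fin 4 → F, x ≠ 0 ∧ ∑ i, a i * x i ^ 2 = 0) :
    ∃ c : F, c ≠ 0 ∧ Splits (-(a 0 * a 1)) (a 0 * c) ∧ Splits (-(a 2 * a 3)) (-(a 2 * c)) := by
  have univ : ∀ {α β x y : F}, α ≠ 0 → β ≠ 0 → (x ≠ 0 ∨ y ≠ 0) → α * x ^ 2 + β * y ^ 2 = 0 →
      ∀ c : F, ∃ x' y' : F, α * x' ^ 2 + β * y' ^ 2 = c := by
    intro α β x y hα hβ hxy h0 c
    refine rep_of_splits hα hβ ⟨y, 0, α * x, ?_, ?_⟩
    · rcases hxy with h | h
      · exact Or.inr (Or.inr (mul_ne_zero hα h))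
      · exact Or.inl h
    · linear_combination α * h0
  have key : ∀ x0 x1 x2 x3 : F, a 0 * x0 ^ 2 + a 1 * x1 ^ 2 ≠ 0 →
      (a 0 * x0 ^ 2 + a 1 * x1 ^ 2) + (a 2 * x2 ^ 2 + a 3 * x3 ^ 2) = 0 →
      ∃ c : F, c ≠ 0 ∧ Splits (-(a 0 * a 1)) (a 0 * c) ∧ Splits (-(a 2 * a 3)) (-(a 2 * c)) := by
    intro x0 x1 x2 x3 h1 h3
    refine ⟨a 0 * x0 ^ 2 + a 1 * x1 ^ 2, h1, splits_of_rep rfl, ?_⟩
    have := splits_of_rep (b := a 3) (x := x2) (y := x3) (a := a 2) rfl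
    rw [show -(a 2 * (a 0 * x0 ^ 2 + a 1 * x1 ^ 2)) = a 2 * (a 2 * x2 ^ 2 + a 3 * x3 ^ 2) by
      linear_combination (-(a 2)) * h3]
    exact this
  obtain ⟨x, hx, hs⟩ := h
  rw [Fin.sum_univ_four] at hs
  by_cases hc : a 0 * x 0 ^ 2 + a 1 * x 1 ^ 2 = 0
  · by_cases h01 : x 0 ≠ 0 ∨ x 1 ≠ 0
    · obtain ⟨u, v, huv⟩ := univ (ha 0) (ha 1) h01 hc (-(a 2))
      refine key u v 1 0 ?_ ?_
      · rw [huv]; exact neg_ne_zero.2 (ha 2)
      · rw [huv]; ring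
    · push Not at h01
      have h23 : x 2 ≠ 0 ∨ x 3 ≠ 0 := by
        by_contra hcon
        push Not at hcon
        apply hx
        funext i
        fin_cases i
        · exact h01.1
        · exact h01.2
        · exact hcon.1
        · exact hcon.2
      have h5 : a 2 * x 2 ^ 2 + a 3 * x 3 ^ 2 = 0 := by linear_combination hs - hc
      obtain ⟨u, v, huv⟩ := univ (ha 2) (ha 3) h23 h5 (-(a 0))
      refine key 1 0 u v ?_ ?_
      · simpa using ha 0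
      · rw [huv]; ring
  · exact key (x 0) (x 1) (x 2) (x 3) hc (by linear_combination hs)

/-- from the common value to an isotropic vector -/
theorem glue4 {F : Type} [Field F] [CharZero F] (a : Fin 4 → F) (ha : ∀ i, a i ≠ 0) {c : F} (hc : c ≠ 0)
    (h1 : Splits (-(a 0 * a 1)) (a 0 * c)) (h2 : Splits (-(a 2 * a 3)) (-(a 2 * c))) :
    ∃ x : Fin 4 → F, x ≠ 0 ∧ ∑ i, a i * x i ^ 2 = 0 := by
  obtain ⟨x0, x1, e1⟩ := rep_of_splits (ha 0) (ha 1) h1
  obtain ⟨x2, x3, e2⟩ := rep_of_splits (c := -c) (ha 2) (ha 3) (by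
    rw [show a 2 * -c = -(a 2 * c) by ring]; exact h2)
  refine ⟨![x0, x1, x2, x3], ?_, ?_⟩
  · intro h
    have h0' : x0 = 0 := congrFun h 0
    have h1' : x1 = 0 := congrFun h 1
    rw [h0', h1'] at e1
    apply hc
    linear_combination -e1
  · rw [Fin.sum_univ_four]
    simp only [Matrix.cons_val_zero, Matrix.cons_val_one, Matrix.cons_val]
    linear_combination e1 + e2

/-- **Four variables.** -/
theorem hm4 (a : Fin 4 → ℤ) (ha : ∀ i, a i ≠ 0) (hpos : ∃ i, 0 < a i) (hneg : ∃ i, a i < 0)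
    (hiso : ∀ p : Nat.Primes, ((p : ℕ) : ℤ) ∣ 2 * (a 0 * a 1 * a 2 * a 3) →
      ∃ x : Fin 4 → ℚ_[(p : ℕ)], x ≠ 0 ∧ ∑ i, (a i : ℚ_[(p : ℕ)]) * x i ^ 2 = 0) :
    ∃ x : Fin 4 → ℚ, x ≠ 0 ∧ ∑ i, (a i : ℚ) * x i ^ 2 = 0 := by
  classical
  set P : ℤ := 2 * (a 0 * a 1 * a 2 * a 3) with hP
  have hP0 : P ≠ 0 := by
    rw [hP]
    exact mul_ne_zero two_ne_zero (mul_ne_zero (mul_ne_zero (mul_ne_zero (ha 0) (ha 1))
      (ha 2)) (ha 3))
  have hfin : {p : Nat.Primes | ((p : ℕ) : ℤ) ∣ P}.Finite := by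
    refine Set.Finite.of_finite_image (f := fun p : Nat.Primes => (p : ℕ)) ?_
      (fun _ _ _ _ h => Subtype.ext h)
    refine (Set.finite_le_nat P.natAbs).subset ?_
    rintro _ ⟨p, hp, rfl⟩
    have h1 : (p : ℕ) ∣ P.natAbs := Int.natCast_dvd.1 hp
    exact Nat.le_of_dvd (Int.natAbs_pos.2 hP0) h1
  set T : Finset Nat.Primes := hfin.toFinset with hT
  have hnT : ∀ p : Nat.Primes, p ∉ T → ¬ ((p : ℕ) : ℤ) ∣ P := by
    intro p hp h
    exact hp ((Set.Finite.mem_toFinset hfin).2 h)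
  have hTT : ∀ p : Nat.Primes, p ∈ T → ((p : ℕ) : ℤ) ∣ P := fun p hp =>
    (Set.Finite.mem_toFinset hfin).1 hp
  have hTa : ∀ p : Nat.Primes, p ∉ T → (p : ℕ) ≠ 2 ∧ ∀ i, ¬ ((p : ℕ) : ℤ) ∣ a i := by
    intro p hp
    have h := hnT p hp
    refine ⟨fun h2 => h ?_, fun i hi => h ?_⟩
    · rw [h2, hP]; exact Dvd.intro _ rfl
    · rw [hP]
      refine Dvd.dvd.mul_left ?_ _
      fin_cases i
      · exact ((hi.mul_right _).mul_right _).mul_right _
      · exact ((hi.mul_left _).mul_right _).mul_right _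
      · exact (hi.mul_left _).mul_right _
      · exact hi.mul_left _
  have cast0 : ∀ (p : Nat.Primes) (i : Fin 4), ((a i : ℤ) : ℚ_[(p : ℕ)]) ≠ 0 := fun p i =>
    Int.cast_ne_zero.2 (ha i)
  have hloc : ∀ p : Nat.Primes, ∃ c : ℤ, c ≠ 0 ∧ (p ∈ T →
      Splits (-((a 0 : ℚ_[(p : ℕ)]) * a 1)) ((a 0 : ℚ_[(p : ℕ)]) * c) ∧
      Splits (-((a 2 : ℚ_[(p : ℕ)]) * a 3)) (-((a 2 : ℚ_[(p : ℕ)]) * c))) := by
    intro p
    by_cases hpT : p ∈ T
    · obtain ⟨c, hc, h1, h2⟩ := split4 (fun i => ((a i : ℤ) : ℚ_[(p : ℕ)]))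
        (cast0 p) (hiso p (hTT p hpT))
      obtain ⟨c', hc', hcc⟩ := exists_int_class (p : ℕ) c hc
      have k1 : ((c' : ℤ) : ℚ_[(p : ℕ)]) ≠ 0 := Int.cast_ne_zero.2 hc'
      refine ⟨c', hc', fun _ => ⟨?_, ?_⟩⟩
      · refine (splits_class (mul_ne_zero (cast0 p 0) hc) (mul_ne_zero (cast0 p 0) k1) ?_).1 h1
        obtain ⟨r, hr⟩ := hcc
        exact ⟨a 0 * r, by linear_combination (a 0 : ℚ_[(p : ℕ)]) ^ 2 * hr⟩
      · refine (splits_class (neg_ne_zero.2 (mul_ne_zero (cast0 p 2) hc))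
          (neg_ne_zero.2 (mul_ne_zero (cast0 p 2) k1)) ?_).1 h2
        obtain ⟨r, hr⟩ := hcc
        exact ⟨a 2 * r, by linear_combination (a 2 : ℚ_[(p : ℕ)]) ^ 2 * hr⟩
    · exact ⟨1, one_ne_zero, fun h => absurd h hpT⟩
  choose gc hgc L using hloc
  have hreal : ∃ sc : ℤ, (sc = 1 ∨ sc = -1) ∧
      (0 < -(a 0 * a 1) ∨ 0 < a 0 * sc) ∧ (0 < -(a 2 * a 3) ∨ 0 < -(a 2 * sc)) := by
    obtain ⟨i, hi⟩ := hpos
    obtain ⟨j, hj⟩ := hneg
    have sg : ∀ k, 0 < a k ∨ a k < 0 := fun k => (lt_or_gt_of_ne (ha k)).symm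
    have pn : ∀ {x y : ℤ}, 0 < x → y < 0 → 0 < -(x * y) := fun h1 h2 => by nlinarith
    have np : ∀ {x y : ℤ}, x < 0 → 0 < y → 0 < -(x * y) := fun h1 h2 => by nlinarith
    rcases sg 0 with h0 | h0 <;> rcases sg 1 with h1 | h1 <;> rcases sg 2 with h2 | h2 <;>
      rcases sg 3 with h3 | h3
    all_goals first
      | (exfalso; fin_cases i <;> fin_cases j <;> simp at hi hj <;> omega)
      | (refine ⟨1, Or.inl rfl, ?_, ?_⟩ <;>
          first
            | (left; first | exact pn (by assumption) (by assumption) | exact np (by assumption) (by assumption))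
            | (right; first | (simp; omega)))
      | (refine ⟨-1, Or.inr rfl, ?_, ?_⟩ <;>
          first
            | (left; first | exact pn (by assumption) (by assumption) | exact np (by assumption) (by assumption))
            | (right; first | (simp; omega)))
  obtain ⟨sc, hsc, R1, R2⟩ := hreal
  obtain ⟨c, q, hq, hcs, hcT, hcn⟩ := dir_ T gc sc hsc hgc
  have hc0 : c ≠ 0 := by rintro rfl; simp at hcs
  have hcne : ∀ p : Nat.Primes, ((c : ℤ) : ℚ_[(p : ℕ)]) ≠ 0 := fun p => Int.cast_ne_zero.2 hc0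
  have hgcne : ∀ p : Nat.Primes, ((gc p : ℤ) : ℚ_[(p : ℕ)]) ≠ 0 := fun p =>
    Int.cast_ne_zero.2 (hgc p)
  have hprime : ∀ (p : Nat.Primes) {x y : ℤ}, ¬ ((p : ℕ) : ℤ) ∣ x → ¬ ((p : ℕ) : ℤ) ∣ y →
      ¬ ((p : ℕ) : ℤ) ∣ x * y := by
    intro p x y hx hy h
    rcases (Nat.prime_iff_prime_int.1 p.2).dvd_or_dvd h with h | h
    · exact hx h
    · exact hy h
  have hnegd : ∀ (p : Nat.Primes) {x : ℤ}, ¬ ((p : ℕ) : ℤ) ∣ x → ¬ ((p : ℕ) : ℤ) ∣ -x :=
    fun p x hx h => hx (dvd_neg.1 h)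
  have sgn : ∀ {x s : ℤ}, 0 < x * s → (s = 1 ∨ s = -1) → ∀ b : ℤ, 0 < b * s → 0 < b * x := by
    rintro x s h1 (rfl | rfl) b h2
    · simp at h1 h2
      exact mul_pos h2 h1
    · simp at h1 h2
      exact mul_pos_of_neg_of_neg h2 h1
  have cT : ∀ p ∈ T, IsSquare (((c : ℤ) : ℚ_[(p : ℕ)]) * ((gc p : ℤ) : ℚ_[(p : ℕ)])) := by
    intro p hp
    have h := hcT p hp
    push_cast at h
    exact h
  have S1 : Splits ((-(a 0 * a 1) : ℤ) : ℚ) ((a 0 * c : ℤ) : ℚ) := by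
    refine global (neg_ne_zero.2 (mul_ne_zero (ha 0) (ha 1))) (mul_ne_zero (ha 0) hc0) q ?_ ?_
    · rw [splits_real_iff]
      · rcases R1 with h | h
        · exact Or.inl (by exact_mod_cast h)
        · exact Or.inr (by exact_mod_cast sgn hcs hsc (a 0) h)
      · exact_mod_cast neg_ne_zero.2 (mul_ne_zero (ha 0) (ha 1))
      · exact_mod_cast mul_ne_zero (ha 0) hc0
    · intro p hpq
      by_cases hpT : p ∈ T
      · push_cast
        refine (splits_class (mul_ne_zero (cast0 p 0) (hcne p)) (mul_ne_zero (cast0 p 0) (hgcne p))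
          ?_).2 (L p hpT).1
        obtain ⟨r, hr⟩ := cT p hpT
        exact ⟨a 0 * r, by linear_combination (a 0 : ℚ_[(p : ℕ)]) ^ 2 * hr⟩
      · obtain ⟨k1, k2⟩ := hTa p hpT
        exact splits_units k1 (hnegd p (hprime p (k2 0) (k2 1))) (hprime p (k2 0) (hcn p hpT hpq))
  have S2 : Splits ((-(a 2 * a 3) : ℤ) : ℚ) ((-(a 2 * c) : ℤ) : ℚ) := by
    refine global (neg_ne_zero.2 (mul_ne_zero (ha 2) (ha 3)))
      (neg_ne_zero.2 (mul_ne_zero (ha 2) hc0)) q ?_ ?_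
    · rw [splits_real_iff]
      · rcases R2 with h | h
        · exact Or.inl (by exact_mod_cast h)
        · have h' : 0 < (-a 2) * sc := by linarith
          have := sgn hcs hsc (-a 2) h'
          exact Or.inr (by
            have h2 : 0 < -(a 2 * c) := by linarith
            exact_mod_cast h2)
      · exact_mod_cast neg_ne_zero.2 (mul_ne_zero (ha 2) (ha 3))
      · exact_mod_cast neg_ne_zero.2 (mul_ne_zero (ha 2) hc0)
    · intro p hpq
      by_cases hpT : p ∈ T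
      · push_cast
        refine (splits_class (neg_ne_zero.2 (mul_ne_zero (cast0 p 2) (hcne p)))
          (neg_ne_zero.2 (mul_ne_zero (cast0 p 2) (hgcne p))) ?_).2 (L p hpT).2
        obtain ⟨r, hr⟩ := cT p hpT
        exact ⟨a 2 * r, by linear_combination (a 2 : ℚ_[(p : ℕ)]) ^ 2 * hr⟩
      · obtain ⟨k1, k2⟩ := hTa p hpT
        exact splits_units k1 (hnegd p (hprime p (k2 2) (k2 3)))
          (hnegd p (hprime p (k2 2) (hcn p hpT hpq)))
  push_cast at S1 S2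
  exact glue4 (fun i => ((a i : ℤ) : ℚ)) (fun i => Int.cast_ne_zero.2 (ha i))
    (Int.cast_ne_zero.2 hc0) S1 S2

end Run7.h18.FO
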