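import Mathlib
import Pool.Agent.Run7.h18.FO.H4

/-!
# Values of ternary forms and the density of the rational points in the real points of a quadric
-/

set_option autoImplicit false

open Filter Topology

namespace Run7.h18.FO

open Pool.Agent.W313.BMX (Splits)
open Pool.Agent.R847.QB

theorem exists_rat {ι : Type} [Fintype ι] {P : (ι → ℝ) → Prop} {d : ι → ℝ} (h : ∀ᶠ x in 𝓝 d, P x) :
    ∃ r : ι → ℚ, P (fun i => (r i : ℝ)) := by
  obtain ⟨δ, hδ, h⟩ := Metric.eventually_nhds_iff.1 h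
  have h1 : ∀ i, ∃ r : ℚ, |d i - r| < δ := fun i => exists_rat_near (d i) hδ
  choose r hr using h1
  refine ⟨r, h ?_⟩
  rw [dist_pi_lt_iff hδ]
  intro i
  rw [Real.dist_eq, abs_sub_comm]
  exact hr i

/-- rational points are dense on a quadric with a rational point -/
theorem quadric_dense (a : Fin 3 → ℤ) (κ : ℚ) (hκ : κ ≠ 0) (p : Fin 3 → ℚ)
    (hp : ∑ j, (a j : ℚ) * p j ^ 2 = κ) (y : Fin 3 → ℝ) (hy : ∑ j, (a j : ℝ) * y j ^ 2 = κ) (ε : ℝ)
    (hε : 0 < ε) : ∃ z : Fin 3 → ℚ, ∑ j, (a j : ℚ) * z j ^ 2 = κ ∧ ∀ j, |(z j : ℝ) - y j| < ε := by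
  -- for one of the two points `p`, `-p`
  have key : ∀ p : Fin 3 → ℚ, ∑ j, (a j : ℚ) * p j ^ 2 = κ →
      ∑ j, (a j : ℝ) * (y j - p j) ^ 2 ≠ 0 →
      ∃ z : Fin 3 → ℚ, ∑ j, (a j : ℚ) * z j ^ 2 = κ ∧ ∀ j, |(z j : ℝ) - y j| < ε := by
    intro p hp hne
    have hpR : ∑ j, (a j : ℝ) * (p j : ℝ) ^ 2 = κ := by
      rw [← hp]
      push_cast
      rfl
    let q : (Fin 3 → ℝ) → ℝ := fun d => ∑ j, (a j : ℝ) * d j ^ 2
    let B : (Fin 3 → ℝ) → ℝ := fun d => ∑ j, (a j : ℝ) * (p j : ℝ) * d j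
    have hq : Continuous q := by fun_prop
    have hB : Continuous B := by fun_prop
    set d0 : Fin 3 → ℝ := fun j => y j - p j with hd0
    have hq0 : q d0 ≠ 0 := hne
    have hB0 : B d0 = -(q d0) / 2 := by
      simp only [q, B, hd0, Fin.sum_univ_three] at hpR hy ⊢
      linear_combination (-1 / 2 : ℝ) * hpR + (1 / 2 : ℝ) * hy
    have h1 : ∀ᶠ d in 𝓝 d0, q d ≠ 0 := hq.continuousAt.eventually_ne hq0
    have h2 : ∀ j, ∀ᶠ d in 𝓝 d0, |((p j : ℝ) - 2 * B d / q d * d j) - y j| < ε := by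
      intro j
      have hc : ContinuousAt (fun d : Fin 3 → ℝ => ((p j : ℝ) - 2 * B d / q d * d j) - y j) d0 := by
        refine ContinuousAt.sub (ContinuousAt.sub continuousAt_const (ContinuousAt.mul
          (ContinuousAt.div ?_ hq.continuousAt hq0) (continuous_apply j).continuousAt))
          continuousAt_const
        exact (continuous_const.mul hB).continuousAt
      have h0 : ((p j : ℝ) - 2 * B d0 / q d0 * d0 j) - y j = 0 := by
        rw [hB0, show d0 j = y j - (p j : ℝ) from rfl]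
        field_simp
        ring
      have h3 := hc.tendsto
      rw [h0] at h3
      filter_upwards [h3.eventually (Metric.ball_mem_nhds (0 : ℝ) hε)] with d hd
      have hd1 : dist ((p j : ℝ) - 2 * B d / q d * d j - y j) 0 < ε := hd
      rw [Real.dist_eq, sub_zero] at hd1
      exact hd1
    obtain ⟨r, hr1, hr2⟩ := exists_rat (h1.and (eventually_all.2 h2))
    set Q : ℚ := ∑ j, (a j : ℚ) * r j ^ 2 with hQ
    set Bq : ℚ := ∑ j, (a j : ℚ) * p j * r j with hBq
    have e1 : q (fun i => (r i : ℝ)) = (Q : ℝ) := by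
      simp only [q, hQ]
      push_cast
      rfl
    have e2 : B (fun i => (r i : ℝ)) = (Bq : ℝ) := by
      simp only [B, hBq]
      push_cast
      rfl
    rw [e1] at hr1
    have hQ0 : Q ≠ 0 := by exact_mod_cast hr1
    refine ⟨fun j => p j - 2 * Bq / Q * r j, ?_, fun j => ?_⟩
    · have e3 : ∀ c : ℚ, ∑ j, (a j : ℚ) * (p j - c * r j) ^ 2 =
          ∑ j, (a j : ℚ) * p j ^ 2 - 2 * c * Bq + c ^ 2 * Q := by
        intro c
        simp only [hBq, hQ, Fin.sum_univ_three]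
        ring
      rw [e3 (2 * Bq / Q), hp]
      field_simp
      ring
    · have h3 := hr2 j
      rw [e1, e2] at h3
      push_cast
      exact h3
  by_cases h : ∑ j, (a j : ℝ) * (y j - p j) ^ 2 = 0
  · refine key (fun j => -(p j)) (by simpa using hp) ?_
    have hpR : ∑ j, (a j : ℝ) * (p j : ℝ) ^ 2 = κ := by
      rw [← hp]
      push_cast
      rfl
    have hκR : (κ : ℝ) ≠ 0 := by exact_mod_cast hκ
    intro h'
    apply hκR
    push_cast at h'
    simp only [Fin.sum_univ_three] at h h' hpR hy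
    linear_combination (1 / 4 : ℝ) * h + (1 / 4 : ℝ) * h' - (1 / 2 : ℝ) * hpR - (1 / 2 : ℝ) * hy
  · exact key p hp h

/-- a ternary form with an isotropic vector represents everything -/
theorem universal (a : Fin 3 → ℤ) (ha : ∀ j, a j ≠ 0) (v : Fin 3 → ℚ) (hv : v ≠ 0)
    (h : ∑ j, (a j : ℚ) * v j ^ 2 = 0) (κ : ℚ) : ∃ y : Fin 3 → ℚ, ∑ j, (a j : ℚ) * y j ^ 2 = κ := by
  obtain ⟨i, hi⟩ : ∃ i, v i ≠ 0 := by
    by_contra hcon
    push Not at hcon
    exact hv (funext hcon)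
  have hai : (a i : ℚ) ≠ 0 := Int.cast_ne_zero.2 (ha i)
  set s : ℚ := (κ - a i) / (2 * a i * v i) with hs
  refine ⟨fun j => (if j = i then 1 else 0) + s * v j, ?_⟩
  have e1 : ∀ j, (a j : ℚ) * ((if j = i then 1 else 0) + s * v j) ^ 2 =
      (if j = i then (a j : ℚ) * (1 + 2 * s * v j) else 0) + s ^ 2 * ((a j : ℚ) * v j ^ 2) := by
    intro j
    by_cases hj : j = i
    · simp only [hj, if_true]
      ring
    · simp only [hj, if_false]
      ring
  rw [Finset.sum_congr rfl fun j _ => e1 j, Finset.sum_add_distrib, ← Finset.mul_sum, h,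
    Finset.sum_ite_eq' Finset.univ i, if_pos (Finset.mem_univ i), hs]
  field_simp
  ring

/-- the local-global principle for the values of ternary forms -/
theorem ternary_rep (a : Fin 3 → ℤ) (ha : ∀ j, a j ≠ 0) (κ : ℚ) (hκ : κ ≠ 0)
    (hR : ∃ y : Fin 3 → ℝ, ∑ j, (a j : ℝ) * y j ^ 2 = κ)
    (hp : ∀ p : Nat.Primes, ((p : ℕ) : ℤ) ∣ 2 * (a 0 * a 1 * a 2) →
      ∃ y : Fin 3 → ℚ_[(p : ℕ)], ∑ j, (a j : ℚ_[(p : ℕ)]) * y j ^ 2 = κ) :
    ∃ y : Fin 3 → ℚ, ∑ j, (a j : ℚ) * y j ^ 2 = κ := by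
  set n : ℤ := κ.num * κ.den with hn
  have hden : (κ.den : ℚ) ≠ 0 := Nat.cast_ne_zero.2 κ.den_ne_zero
  have hκn : κ * (κ.den : ℚ) ^ 2 = (n : ℚ) := by
    rw [hn]
    push_cast
    have : κ * κ.den = κ.num := Rat.mul_den_eq_num κ
    linear_combination (κ.den : ℚ) * this
  have hn0 : n ≠ 0 := by
    intro h
    rw [h] at hκn
    push_cast at hκn
    exact mul_ne_zero hκ (pow_ne_zero 2 hden) hκn
  set A : Fin 4 → ℤ := ![a 0, a 1, a 2, -n] with hA
  have hA0 : ∀ i, A i ≠ 0 := by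
    intro i
    fin_cases i
    · exact ha 0
    · exact ha 1
    · exact ha 2
    · exact neg_ne_zero.2 hn0
  obtain ⟨y, hy⟩ := hR
  have hnR : (κ : ℝ) * (κ.den : ℝ) ^ 2 = (n : ℝ) := by exact_mod_cast hκn
  have hdp : (0 : ℝ) < (κ.den : ℝ) ^ 2 := by
    have : (0 : ℝ) < κ.den := by exact_mod_cast κ.den_pos
    positivity
  have hpos : ∃ i, 0 < A i := by
    by_contra hcon
    push Not at hcon
    have h0 : (a 0 : ℝ) ≤ 0 := by exact_mod_cast hcon 0
    have h1 : (a 1 : ℝ) ≤ 0 := by exact_mod_cast hcon 1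
    have h2 : (a 2 : ℝ) ≤ 0 := by exact_mod_cast hcon 2
    have h3 : -n ≤ 0 := hcon 3
    have h4 : (0 : ℝ) < n := by
      have : 0 < n := lt_of_le_of_ne (by omega) (Ne.symm hn0)
      exact_mod_cast this
    have h5 : (κ : ℝ) ≤ 0 := by
      rw [← hy, Fin.sum_univ_three]
      nlinarith [mul_nonneg (neg_nonneg.2 h0) (sq_nonneg (y 0)),
        mul_nonneg (neg_nonneg.2 h1) (sq_nonneg (y 1)), mul_nonneg (neg_nonneg.2 h2) (sq_nonneg (y 2))]
    nlinarith
  have hneg : ∃ i, A i < 0 := by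
    by_contra hcon
    push Not at hcon
    have h0 : (0 : ℝ) ≤ a 0 := by exact_mod_cast hcon 0
    have h1 : (0 : ℝ) ≤ a 1 := by exact_mod_cast hcon 1
    have h2 : (0 : ℝ) ≤ a 2 := by exact_mod_cast hcon 2
    have h3 : 0 ≤ -n := hcon 3
    have h4 : (n : ℝ) < 0 := by
      have : n < 0 := lt_of_le_of_ne (by omega) hn0
      exact_mod_cast this
    have h5 : (0 : ℝ) ≤ κ := by
      rw [← hy, Fin.sum_univ_three]
      nlinarith [mul_nonneg h0 (sq_nonneg (y 0)),
        mul_nonneg h1 (sq_nonneg (y 1)), mul_nonneg h2 (sq_nonneg (y 2))]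
    nlinarith
  have hiso : ∀ p : Nat.Primes, ((p : ℕ) : ℤ) ∣ 2 * (A 0 * A 1 * A 2 * A 3) →
      ∃ x : Fin 4 → ℚ_[(p : ℕ)], x ≠ 0 ∧ ∑ i, (A i : ℚ_[(p : ℕ)]) * x i ^ 2 = 0 := by
    intro p _
    by_cases hpa : ((p : ℕ) : ℤ) ∣ 2 * (a 0 * a 1 * a 2)
    · obtain ⟨z, hz⟩ := hp p hpa
      refine ⟨![κ.den * z 0, κ.den * z 1, κ.den * z 2, 1], ?_, ?_⟩
      · intro h
        exact one_ne_zero (congrFun h 3)
      · rw [Fin.sum_univ_four]
        rw [Fin.sum_univ_three] at hz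
        have hnp : (κ : ℚ_[(p : ℕ)]) * (κ.den : ℚ_[(p : ℕ)]) ^ 2 = (n : ℚ_[(p : ℕ)]) := by
          exact_mod_cast congrArg (fun u : ℚ => (u : ℚ_[(p : ℕ)])) hκn
        simp only [hA, Matrix.cons_val_zero, Matrix.cons_val_one, Matrix.cons_val]
        push_cast
        linear_combination (κ.den : ℚ_[(p : ℕ)]) ^ 2 * hz + hnp
    · have hpr := Nat.prime_iff_prime_int.1 p.2
      have h2 : (p : ℕ) ≠ 2 := by
        intro h
        apply hpa
        rw [h]
        exact Dvd.intro _ rfl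
      have h0 : ∀ j, ¬ ((p : ℕ) : ℤ) ∣ a j := by
        intro j hj
        apply hpa
        refine Dvd.dvd.mul_left ?_ _
        fin_cases j
        · exact (hj.mul_right _).mul_right _
        · exact (hj.mul_left _).mul_right _
        · exact hj.mul_left _
      have hm : ∀ j, ¬ ((p : ℕ) : ℤ) ∣ -(a j * a 2) := by
        intro j h
        rcases hpr.dvd_or_dvd (dvd_neg.1 h) with h | h
        · exact h0 j h
        · exact h0 2 h
      obtain ⟨u, v, z, hne, huv⟩ := splits_units (p := (p : ℕ)) h2 (hm 0) (hm 1)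
      have ha2 : ((a 2 : ℤ) : ℚ_[(p : ℕ)]) ≠ 0 := Int.cast_ne_zero.2 (ha 2)
      refine ⟨![u, v, z / (a 2 : ℚ_[(p : ℕ)]), 0], ?_, ?_⟩
      · intro h
        have e0 : u = 0 := congrFun h 0
        have e1 : v = 0 := congrFun h 1
        have e2 : z / (a 2 : ℚ_[(p : ℕ)]) = 0 := congrFun h 2
        have e3 : z = 0 := by
          rcases div_eq_zero_iff.1 e2 with h | h
          · exact h
          · exact absurd h ha2
        rcases hne with h | h | h
        · exact h e0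
        · exact h e1
        · exact h e3
      · rw [Fin.sum_univ_four]
        simp only [hA, Matrix.cons_val_zero, Matrix.cons_val_one, Matrix.cons_val]
        push_cast at huv ⊢
        field_simp
        linear_combination huv
  obtain ⟨x, hx, hs⟩ := hm4 A hA0 hpos hneg hiso
  rw [Fin.sum_univ_four] at hs
  simp only [hA, Matrix.cons_val_zero, Matrix.cons_val_one, Matrix.cons_val] at hs
  push_cast at hs
  by_cases h3 : x 3 = 0
  · refine universal a ha ![x 0, x 1, x 2] ?_ ?_ κ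
    · intro h
      apply hx
      funext i
      fin_cases i
      · exact congrFun h 0
      · exact congrFun h 1
      · exact congrFun h 2
      · exact h3
    · rw [Fin.sum_univ_three]
      simp only [Matrix.cons_val_zero, Matrix.cons_val_one, Matrix.cons_val]
      rw [h3] at hs
      linear_combination hs
  · refine ⟨![x 0 / (x 3 * κ.den), x 1 / (x 3 * κ.den), x 2 / (x 3 * κ.den)], ?_⟩
    rw [Fin.sum_univ_three]
    simp only [Matrix.cons_val_zero, Matrix.cons_val_one, Matrix.cons_val]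
    field_simp
    linear_combination hs - x 3 ^ 2 * hκn

end Run7.h18.FO
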