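import Mathlib
import Pool.Agent.Run7.h18.FO.Q3
import Pool.Agent.Run7.h18.FO.B

/-!
# Systems `a y₁² + b y₂² + c y₃² = f(t)` with a common base
-/

set_option autoImplicit false

open Filter Topology MvPolynomial

namespace Run7.h18.FO

open Pool.Agent.R847.QB

theorem cont_aeval_p {ι : Type} (p : ℕ) [Fact p.Prime] (q : MvPolynomial ι ℚ) :
    Continuous (fun x : ι → ℚ_[p] => (aeval x q : ℚ_[p])) := by
  have h : (fun x : ι → ℚ_[p] => (aeval x q : ℚ_[p])) =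
      fun x => eval x (map (algebraMap ℚ ℚ_[p]) q) := by
    funext x
    rw [aeval_def, eval_map]
  rw [h]
  exact continuous_eval _

theorem aeval_cast_p {ι : Type} (p : ℕ) [Fact p.Prime] (r : ι → ℚ) (q : MvPolynomial ι ℚ) :
    (aeval (fun i => (r i : ℚ_[p])) q : ℚ_[p]) = ((eval r q : ℚ) : ℚ_[p]) := by
  induction q using MvPolynomial.induction_on with
  | C a => simp
  | add p q hp hq => simp [hp, hq]
  | mul_X p i hp => simp [hp]

/-- the squares are a neighbourhood of each nonzero square -/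
theorem squares_nhds (p : ℕ) [Fact p.Prime] (u : ℚ_[p]) (hu : u ≠ 0) :
    ∀ᶠ v in 𝓝 (u ^ 2), IsSquare v := by
  have h1 : HasStrictDerivAt (fun x : ℚ_[p] => x ^ 2) (2 * u) u := by
    simpa using hasStrictDerivAt_pow 2 u
  have h2 := h1.map_nhds_eq (mul_ne_zero two_ne_zero hu)
  rw [← h2, eventually_map]
  exact Eventually.of_forall fun x => ⟨x, by ring⟩

/-- near `t0` the value of `f` is that at `t0` up to a square -/
theorem local_class {m : ℕ} (p : ℕ) [Fact p.Prime] (f : MvPolynomial (Fin m) ℚ) (t0 : Fin m → ℚ)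
    (h0 : eval t0 f ≠ 0) : ∀ᶠ e : ℕ in atTop, ∀ t : Fin m → ℚ,
      (∀ k, ‖((t k - t0 k : ℚ) : ℚ_[p])‖ ≤ (1 / 2) ^ e) →
      IsSquare (((eval t f : ℚ) : ℚ_[p]) * ((eval t0 f : ℚ) : ℚ_[p])) := by
  have h0' : ((eval t0 f : ℚ) : ℚ_[p]) ≠ 0 := by exact_mod_cast h0
  have hc : Continuous (fun x : Fin m → ℚ_[p] => (aeval x f : ℚ_[p]) * ((eval t0 f : ℚ) : ℚ_[p])) :=
    (cont_aeval_p p f).mul continuous_const
  have h1 := squares_nhds p _ h0'
  have h2 : ∀ᶠ x in 𝓝 (fun i => (t0 i : ℚ_[p])),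
      IsSquare ((aeval x f : ℚ_[p]) * ((eval t0 f : ℚ) : ℚ_[p])) := by
    refine hc.continuousAt.eventually ?_
    show ∀ᶠ y in 𝓝 ((aeval (fun i => (t0 i : ℚ_[p])) f : ℚ_[p]) * ((eval t0 f : ℚ) : ℚ_[p])), IsSquare y
    rw [aeval_cast_p, ← pow_two]
    exact h1
  obtain ⟨δ, hδ, h3⟩ := Metric.eventually_nhds_iff.1 h2
  have h4 : Tendsto (fun e : ℕ => (1 / 2 : ℝ) ^ e) atTop (𝓝 0) :=
    tendsto_pow_atTop_nhds_zero_of_lt_one (by norm_num) (by norm_num)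
  filter_upwards [h4.eventually_lt_const hδ] with e he t ht
  have h5 := h3 (y := fun i => (t i : ℚ_[p])) (by
    rw [dist_pi_lt_iff hδ]
    intro k
    rw [dist_eq_norm]
    refine lt_of_le_of_lt ?_ he
    have := ht k
    push_cast at this
    exact this)
  rwa [aeval_cast_p] at h5

/-- approximation of a real vector by rational vectors congruent to a given one -/
theorem approx {m : ℕ} (T : Finset Nat.Primes) (e : ℕ) (t0 : Fin m → ℚ) (x : Fin m → ℝ) (ε : ℝ)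
    (hε : 0 < ε) : ∃ t : Fin m → ℚ, (∀ k, |(t k : ℝ) - x k| < ε) ∧
      ∀ p ∈ T, ∀ k, ‖((t k - t0 k : ℚ) : ℚ_[(p : ℕ)])‖ ≤ (1 / 2) ^ e := by
  classical
  set M : ℕ := (∏ p ∈ T, (p : ℕ)) ^ (e + 1) with hM
  have hM0 : 0 < M := by
    rw [hM]
    exact pow_pos (Finset.prod_pos fun p _ => p.2.pos) (e + 1)
  have hMR : (0 : ℝ) < M := by exact_mod_cast hM0
  have hlim : Tendsto (fun j : ℕ => (M : ℝ) * (1 / ((M : ℝ) + 1)) ^ j) atTop (𝓝 (M * 0)) := by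
    refine (tendsto_pow_atTop_nhds_zero_of_lt_one (by positivity) ?_).const_mul _
    rw [div_lt_one (by positivity)]
    linarith
  rw [mul_zero] at hlim
  obtain ⟨j, hj⟩ := (hlim.eventually_lt_const hε).exists
  set L : ℝ := ((M : ℝ) + 1) ^ j with hL
  have hL0 : 0 < L := by positivity
  have hj' : (M : ℝ) / L < ε := by
    have : (M : ℝ) * (1 / ((M : ℝ) + 1)) ^ j = M / L := by
      rw [hL, one_div, inv_pow]
      rfl
    rwa [this] at hj
  refine ⟨fun k => t0 k + M * (⌊(x k - t0 k) * L / M⌋ : ℤ) / (M + 1) ^ j, fun k => ?_,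
    fun p hp k => ?_⟩
  · push_cast
    set a : ℝ := (x k - t0 k) * L / M with ha
    have h1 := Int.floor_le a
    have h2 := Int.lt_floor_add_one a
    have h3 : (x k : ℝ) = t0 k + M * a / L := by
      rw [ha]
      field_simp
      ring
    rw [h3]
    have h4 : (t0 k : ℝ) + M * (⌊a⌋ : ℝ) / L - (t0 k + M * a / L) = (M / L) * (⌊a⌋ - a) := by
      field_simp
      ring
    rw [h4, abs_mul, abs_of_pos (by positivity)]
    have h5 : |(⌊a⌋ : ℝ) - a| ≤ 1 := by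
      rw [abs_le]
      constructor <;> linarith
    calc (M : ℝ) / L * |(⌊a⌋ : ℝ) - a| ≤ M / L * 1 :=
          mul_le_mul_of_nonneg_left h5 (by positivity)
      _ < ε := by rwa [mul_one]
  · rw [add_sub_cancel_left]
    set z : ℤ := ⌊(x k - t0 k) * L / M⌋ with hz
    have hdP : (p : ℕ) ∣ ∏ p ∈ T, (p : ℕ) :=
      Finset.dvd_prod_of_mem (fun p : Nat.Primes => (p : ℕ)) hp
    have hdM : (p : ℕ) ∣ M := dvd_pow hdP (by omega)
    have h1 : ‖((M + 1 : ℕ) : ℚ_[(p : ℕ)])‖ = 1 := by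
      rw [Padic.norm_natCast_eq_one_iff]
      refine (Nat.Prime.coprime_iff_not_dvd p.2).2 fun h => ?_
      have h2 : (p : ℕ) ∣ 1 := (Nat.dvd_add_right hdM).1 h
      exact p.2.one_lt.ne' (Nat.dvd_one.1 h2)
    have h2 : ‖((∏ p ∈ T, (p : ℕ) : ℕ) : ℚ_[(p : ℕ)])‖ ≤ 1 / 2 := by
      obtain ⟨c, hc⟩ := hdP
      rw [hc]
      push_cast
      rw [norm_mul, Padic.norm_p]
      have h3 : ‖(c : ℚ_[(p : ℕ)])‖ ≤ 1 := by
        have := Padic.norm_int_le_one (p := (p : ℕ)) (c : ℤ)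
        simpa using this
      have h4 : ((p : ℕ) : ℝ)⁻¹ ≤ 1 / 2 := by
        rw [inv_eq_one_div]
        exact one_div_le_one_div_of_le (by norm_num) (by exact_mod_cast p.2.two_le)
      calc ((p : ℕ) : ℝ)⁻¹ * ‖(c : ℚ_[(p : ℕ)])‖ ≤ (1 / 2) * 1 :=
            mul_le_mul h4 h3 (norm_nonneg _) (by norm_num)
        _ = 1 / 2 := mul_one _
    have h3 : ‖(M : ℚ_[(p : ℕ)])‖ ≤ (1 / 2) ^ e := by
      have h4 : ‖(M : ℚ_[(p : ℕ)])‖ = ‖((∏ p ∈ T, (p : ℕ) : ℕ) : ℚ_[(p : ℕ)])‖ ^ (e + 1) := by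
        rw [hM, Nat.cast_pow, norm_pow]
      rw [h4]
      calc ‖((∏ p ∈ T, (p : ℕ) : ℕ) : ℚ_[(p : ℕ)])‖ ^ (e + 1) ≤ (1 / 2) ^ (e + 1) :=
            pow_le_pow_left₀ (norm_nonneg _) h2 _
        _ ≤ (1 / 2) ^ e := pow_le_pow_of_le_one (by norm_num) (by norm_num) (by omega)
    have h4 : ‖(z : ℚ_[(p : ℕ)])‖ ≤ 1 := Padic.norm_int_le_one z
    have h5 : (((M : ℚ) * (z : ℚ) / ((M : ℚ) + 1) ^ j : ℚ) : ℚ_[(p : ℕ)]) =
        (M : ℚ_[(p : ℕ)]) * (z : ℚ_[(p : ℕ)]) / ((M + 1 : ℕ) : ℚ_[(p : ℕ)]) ^ j := by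
      push_cast
      rfl
    rw [h5, norm_div, norm_mul, norm_pow, h1, one_pow, div_one]
    calc ‖(M : ℚ_[(p : ℕ)])‖ * ‖(z : ℚ_[(p : ℕ)])‖ ≤ (1 / 2) ^ e * 1 :=
          mul_le_mul h3 h4 (norm_nonneg _) (by positivity)
      _ = (1 / 2) ^ e := mul_one _

variable {m r : ℕ}

/-- the equations `a_i0 y_i0² + a_i1 y_i1² + a_i2 y_i2² = f_i(t)` -/
def OnX (a : Fin r → Fin 3 → ℤ) (f : Fin r → MvPolynomial (Fin m) ℚ) {K : Type} [Field K] [Algebra ℚ K]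
    (t : Fin m → K) (y : Fin r → Fin 3 → K) : Prop :=
  ∀ i, ∑ j, (a i j : K) * y i j ^ 2 = aeval t (f i)

theorem onX_rat (a : Fin r → Fin 3 → ℤ) (f : Fin r → MvPolynomial (Fin m) ℚ) (t : Fin m → ℚ)
    (y : Fin r → Fin 3 → ℚ) (h : OnX a f t y) (i : Fin r) :
    ∑ j, (a i j : ℚ) * y i j ^ 2 = eval t (f i) := by
  rw [h i, aeval_def, Algebra.algebraMap_self]
  rfl

/-- **density** -/
theorem system (a : Fin r → Fin 3 → ℤ) (ha : ∀ i j, a i j ≠ 0) (f : Fin r → MvPolynomial (Fin m) ℚ)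
    (t0 : Fin m → ℚ) (y0 : Fin r → Fin 3 → ℚ) (h0 : ∀ i, ∑ j, (a i j : ℚ) * y0 i j ^ 2 = eval t0 (f i))
    (hf0 : ∀ i, eval t0 (f i) ≠ 0) (x : Fin m → ℝ) (y : Fin r → Fin 3 → ℝ)
    (hy : ∀ i, ∑ j, (a i j : ℝ) * y i j ^ 2 = aeval x (f i)) (hf : ∀ i, (aeval x (f i) : ℝ) ≠ 0)
    (ε : ℝ) (hε : 0 < ε) :
    ∃ (t : Fin m → ℚ) (z : Fin r → Fin 3 → ℚ),
      (∀ i, ∑ j, (a i j : ℚ) * z i j ^ 2 = eval t (f i)) ∧ (∀ i, eval t (f i) ≠ 0) ∧
      (∀ k, |(t k : ℝ) - x k| < ε) ∧ ∀ i j, |(z i j : ℝ) - y i j| < ε := by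
  classical
  -- the primes
  set P : ℤ := ∏ i, (2 * (a i 0 * a i 1 * a i 2)) with hP
  have hP0 : P ≠ 0 := Finset.prod_ne_zero_iff.2 fun i _ =>
    mul_ne_zero two_ne_zero (mul_ne_zero (mul_ne_zero (ha i 0) (ha i 1)) (ha i 2))
  have hfin : {p : Nat.Primes | ((p : ℕ) : ℤ) ∣ P}.Finite := by
    refine Set.Finite.of_finite_image (f := fun p : Nat.Primes => (p : ℕ)) ?_
      (fun _ _ _ _ h => Subtype.ext h)
    refine (Set.finite_le_nat P.natAbs).subset ?_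
    rintro _ ⟨p, hp, rfl⟩
    have h1 : (p : ℕ) ∣ P.natAbs := Int.natCast_dvd.1 hp
    exact Nat.le_of_dvd (Int.natAbs_pos.2 hP0) h1
  set T : Finset Nat.Primes := hfin.toFinset with hT
  have hTi : ∀ p : Nat.Primes, ∀ i, ((p : ℕ) : ℤ) ∣ 2 * (a i 0 * a i 1 * a i 2) → p ∈ T := by
    intro p i h
    rw [hT, Set.Finite.mem_toFinset]
    exact h.trans (Finset.dvd_prod_of_mem (fun i => 2 * (a i 0 * a i 1 * a i 2)) (Finset.mem_univ i))
  -- the precision at the primes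
  have h1 : ∀ᶠ e : ℕ in atTop, ∀ p ∈ T, ∀ i, ∀ t : Fin m → ℚ,
      (∀ k, ‖((t k - t0 k : ℚ) : ℚ_[(p : ℕ)])‖ ≤ (1 / 2) ^ e) →
      IsSquare (((eval t (f i) : ℚ) : ℚ_[(p : ℕ)]) * ((eval t0 (f i) : ℚ) : ℚ_[(p : ℕ)])) := by
    refine (Filter.eventually_all_finset T).2 fun p _ => ?_
    exact eventually_all.2 fun i => local_class (p : ℕ) (f i) t0 (hf0 i)
  obtain ⟨e, he⟩ := h1.exists
  -- the precision at the real place
  have hc : ∀ i, Continuous fun u : Fin m → ℝ => (aeval u (f i) : ℝ) := fun i => cont_aeval (f i)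
  have hq : ∀ i, Continuous fun u : Fin m → ℝ => (aeval u (f i) / aeval x (f i) : ℝ) := fun i =>
    (hc i).div_const _
  have h2 : ∀ᶠ u in 𝓝 x, ∀ i, (0 : ℝ) < aeval u (f i) / aeval x (f i) := by
    refine eventually_all.2 fun i => (hq i).continuousAt.eventually ?_
    show ∀ᶠ y in 𝓝 ((aeval x (f i) : ℝ) / aeval x (f i)), 0 < y
    rw [div_self (hf i)]
    exact lt_mem_nhds one_pos
  have h3 : ∀ᶠ u in 𝓝 x, ∀ i j,
      |Real.sqrt (aeval u (f i) / aeval x (f i)) * y i j - y i j| < ε / 2 := by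
    refine eventually_all.2 fun i => eventually_all.2 fun j => ?_
    have h4 : Continuous fun u : Fin m → ℝ =>
        |Real.sqrt (aeval u (f i) / aeval x (f i)) * y i j - y i j| :=
      (((hq i).sqrt.mul continuous_const).sub continuous_const).abs
    refine Filter.Tendsto.eventually_lt_const ?_ (h4.tendsto x)
    simp only [div_self (hf i), Real.sqrt_one, one_mul, sub_self, abs_zero]
    positivity
  obtain ⟨δ, hδ, h4⟩ := Metric.eventually_nhds_iff.1 (h2.and h3)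
  obtain ⟨t, ht1, ht2⟩ := approx T e t0 x (min δ ε) (lt_min hδ hε)
  have h5 := h4 (y := fun k => (t k : ℝ)) (by
    rw [dist_pi_lt_iff hδ]
    intro k
    rw [Real.dist_eq]
    exact (ht1 k).trans_le (min_le_left _ _))
  obtain ⟨h6, h7⟩ := h5
  have hcast : ∀ i, (aeval (fun k => (t k : ℝ)) (f i) : ℝ) = ((eval t (f i) : ℚ) : ℝ) := fun i =>
    Pool.Agent.TH729.SQ.aeval_cast t (f i)
  have hft : ∀ i, eval t (f i) ≠ 0 := by
    intro i h
    have := h6 i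
    rw [hcast, h] at this
    simp at this
  -- the real points of the fibre
  have h8 : ∀ i, ∑ j, (a i j : ℝ) *
      (Real.sqrt (aeval (fun k => (t k : ℝ)) (f i) / aeval x (f i)) * y i j) ^ 2 =
        ((eval t (f i) : ℚ) : ℝ) := by
    intro i
    have h9 : ∀ j, (a i j : ℝ) *
        (Real.sqrt (aeval (fun k => (t k : ℝ)) (f i) / aeval x (f i)) * y i j) ^ 2 =
        (aeval (fun k => (t k : ℝ)) (f i) / aeval x (f i)) * ((a i j : ℝ) * y i j ^ 2) := by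
      intro j
      rw [mul_pow, Real.sq_sqrt (h6 i).le]
      ring
    rw [Finset.sum_congr rfl fun j _ => h9 j, ← Finset.mul_sum, hy i, div_mul_cancel₀ _ (hf i), hcast]
  -- the rational points of the fibres
  have h10 : ∀ i, ∃ w : Fin 3 → ℚ, ∑ j, (a i j : ℚ) * w j ^ 2 = eval t (f i) := by
    intro i
    refine ternary_rep (a i) (ha i) (eval t (f i)) (hft i) ⟨_, h8 i⟩ fun p hp => ?_
    obtain ⟨s, hs⟩ := he p (hTi p i hp) i t (ht2 p (hTi p i hp))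
    have hne : ((eval t0 (f i) : ℚ) : ℚ_[(p : ℕ)]) ≠ 0 := by exact_mod_cast hf0 i
    refine ⟨fun j => s / ((eval t0 (f i) : ℚ) : ℚ_[(p : ℕ)]) * (y0 i j : ℚ_[(p : ℕ)]), ?_⟩
    have h11 : ∑ j, (a i j : ℚ_[(p : ℕ)]) * (y0 i j : ℚ_[(p : ℕ)]) ^ 2 =
        ((eval t0 (f i) : ℚ) : ℚ_[(p : ℕ)]) := by
      rw [← h0 i]
      push_cast
      rfl
    have h12 : ∀ j, (a i j : ℚ_[(p : ℕ)]) *
        (s / ((eval t0 (f i) : ℚ) : ℚ_[(p : ℕ)]) * (y0 i j : ℚ_[(p : ℕ)])) ^ 2 =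
        (s / ((eval t0 (f i) : ℚ) : ℚ_[(p : ℕ)])) ^ 2 *
          ((a i j : ℚ_[(p : ℕ)]) * (y0 i j : ℚ_[(p : ℕ)]) ^ 2) := by
      intro j
      ring
    rw [Finset.sum_congr rfl fun j _ => h12 j, ← Finset.mul_sum, h11]
    field_simp
    linear_combination -hs
  choose w hw using h10
  have h13 : ∀ i, ∃ z : Fin 3 → ℚ, ∑ j, (a i j : ℚ) * z j ^ 2 = eval t (f i) ∧
      ∀ j, |(z j : ℝ) - Real.sqrt (aeval (fun k => (t k : ℝ)) (f i) / aeval x (f i)) * y i j| < ε / 2 :=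
    fun i => quadric_dense (a i) (eval t (f i)) (hft i) (w i) (hw i) _ (h8 i) (ε / 2) (by positivity)
  choose z hz1 hz2 using h13
  refine ⟨t, z, hz1, hft, fun k => (ht1 k).trans_le (min_le_right _ _), fun i j => ?_⟩
  have h14 := hz2 i j
  have h15 := h7 i j
  have h16 : (z i j : ℝ) - y i j =
      ((z i j : ℝ) - Real.sqrt (aeval (fun k => (t k : ℝ)) (f i) / aeval x (f i)) * y i j) +
      (Real.sqrt (aeval (fun k => (t k : ℝ)) (f i) / aeval x (f i)) * y i j - y i j) := by ring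
  rw [h16]
  calc _ ≤ _ := abs_add_le _ _
    _ < ε / 2 + ε / 2 := add_lt_add h14 h15
    _ = ε := add_halves ε

end Run7.h18.FO
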