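import Mathlib
import Pool.Agent.Run7.h18.FO.T1
import Pool.Agent.R847.QB.Line
import Pool.Agent.TH729.CC.Hom

/-!
# The closure of the set of the rational points of systems `a y₁² + b y₂² + c y₃² = f(t)`
-/

set_option autoImplicit false

open Filter Topology MvPolynomial Set Pool.Agent.H581R2 Pool.Agent.TH729.SQ

namespace Run7.h18.FO

/-- The points with coordinates `t_1, …, t_m` and `y_ij`, `i = 1, …, r`, `j = 1, 2, 3` in `K`. -/
abbrev Pt (m r : ℕ) (K : Type) : Type := Fin m ⊕ (Fin r × Fin 3) → K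

/-- The point lies on `X : ∑_j a_ij y_ij² = f_i(t)`, `i = 1, …, r`. -/
def On {m r : ℕ} (a : Fin r → Fin 3 → ℤ) (f : Fin r → MvPolynomial (Fin m) ℚ) {K : Type} [Field K]
    [Algebra ℚ K] (x : Pt m r K) : Prop :=
  ∀ i, ∑ j, (a i j : K) * x (Sum.inr (i, j)) ^ 2 = aeval (fun k => x (Sum.inl k)) (f i)

/-- All the `f_i(t)` are different from `0` at the point. -/
def Proper {m r : ℕ} (f : Fin r → MvPolynomial (Fin m) ℚ) {K : Type} [Field K] [Algebra ℚ K]
    (x : Pt m r K) : Prop :=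
  ∀ i, aeval (fun k => x (Sum.inl k)) (f i) ≠ 0

/-- The rational points of `X`, as real points. -/
def RatX {m r : ℕ} (a : Fin r → Fin 3 → ℤ) (f : Fin r → MvPolynomial (Fin m) ℚ) : Set (Pt m r ℝ) :=
  {x | On a f x ∧ ∃ z : Pt m r ℚ, x = fun s => (z s : ℝ)}

variable {m r : ℕ} {a : Fin r → Fin 3 → ℤ} {f : Fin r → MvPolynomial (Fin m) ℚ}

theorem on_cast (z : Pt m r ℚ) : On a f (fun s => (z s : ℝ)) ↔
    ∀ i, ∑ j, (a i j : ℚ) * z (Sum.inr (i, j)) ^ 2 = eval (fun k => z (Sum.inl k)) (f i) := by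
  refine forall_congr' fun i => ?_
  rw [aeval_cast (fun k => z (Sum.inl k)) (f i),
    show (∑ j, (a i j : ℝ) * ((z (Sum.inr (i, j)) : ℚ) : ℝ) ^ 2) =
      ((∑ j, (a i j : ℚ) * z (Sum.inr (i, j)) ^ 2 : ℚ) : ℝ) by push_cast; rfl]
  exact Rat.cast_inj

theorem proper_cast (z : Pt m r ℚ) : Proper f (fun s => (z s : ℝ)) ↔
    ∀ i, eval (fun k => z (Sum.inl k)) (f i) ≠ 0 := by
  refine forall_congr' fun i => ?_
  rw [aeval_cast (fun k => z (Sum.inl k)) (f i)]
  exact Rat.cast_ne_zero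

theorem dens (ha : ∀ i j, a i j ≠ 0) {x0 : Pt m r ℝ} (hx0 : x0 ∈ RatX a f) (hp0 : Proper f x0)
    {x : Pt m r ℝ} (hx : On a f x) (hp : Proper f x) :
    x ∈ closure (RatX a f ∩ {x | Proper f x}) := by
  obtain ⟨h0, z0, rfl⟩ := hx0
  rw [Metric.mem_closure_iff]
  intro ε hε
  obtain ⟨t, z, h1, h2, h3, h4⟩ := system a ha f (fun k => z0 (Sum.inl k))
    (fun i j => z0 (Sum.inr (i, j))) ((on_cast z0).1 h0) ((proper_cast z0).1 hp0)
    (fun k => x (Sum.inl k)) (fun i j => x (Sum.inr (i, j))) hx hp ε hε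
  let w : Pt m r ℚ := Sum.elim t (fun s => z s.1 s.2)
  refine ⟨fun s => (w s : ℝ), ⟨⟨(on_cast w).2 h1, w, rfl⟩, (proper_cast w).2 h2⟩, ?_⟩
  rw [dist_pi_lt_iff hε]
  rintro (k | ⟨i, j⟩)
  · rw [Real.dist_eq, abs_sub_comm]
    exact h3 k
  · rw [Real.dist_eq, abs_sub_comm]
    exact h4 i j

theorem sa_real (a : Fin r → Fin 3 → ℤ) (f : Fin r → MvPolynomial (Fin m) ℚ) :
    SA {x : Pt m r ℝ | On a f x ∧ Proper f x} := by
  have hc : ∀ i j, PF (fun _ : Pt m r ℝ => ((a i j : ℤ) : ℝ)) := fun i j => by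
    simpa using PF.const (ι := Fin m ⊕ (Fin r × Fin 3)) (a i j : ℚ)
  refine SAP.and (SAP.forall_fin fun i => SAP.eq (PF.sum Finset.univ fun j _ => ?_) (pf_at (f i) _))
    (SAP.forall_fin fun i => SAP.not (SAP.eq_zero (pf_at (f i) _)))
  exact (hc i j).mul ((PF.coord _).pow 2)

theorem sa_proper (ha : ∀ i j, a i j ≠ 0) : SA (closure (RatX a f ∩ {x | Proper f x})) := by
  by_cases h : ∃ x0 ∈ RatX a f, Proper f x0
  · obtain ⟨x0, h0, h1⟩ := h
    have h2 : closure (RatX a f ∩ {x | Proper f x}) = closure {x : Pt m r ℝ | On a f x ∧ Proper f x} := by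
      apply Subset.antisymm
      · exact closure_mono fun x hx => ⟨hx.1.1, hx.2⟩
      · exact closure_minimal (fun x hx => dens ha h0 h1 hx.1 hx.2) isClosed_closure
    rw [h2]
    exact SA.closure (sa_real a f)
  · have h2 : RatX a f ∩ {x | Proper f x} = ∅ := by
      rw [eq_empty_iff_forall_notMem]
      exact fun x hx => h ⟨x, hx.1, hx.2⟩
    rw [h2, closure_empty]
    exact SA.empty

theorem sa_all (ha : ∀ i j, a i j ≠ 0) (h : SA (closure (RatX a f \ {x | Proper f x}))) :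
    SA (closure (RatX a f)) := by
  have h2 : closure (RatX a f) = closure (RatX a f ∩ {x | Proper f x}) ∪
      closure (RatX a f \ {x | Proper f x}) := by
    rw [← closure_union, inter_union_sdiff]
  rw [h2]
  exact (sa_proper ha).union h

/-- the quadric `∑ a_j y_j² = κ` -/
theorem sa_quadric (a : Fin 3 → ℤ) (κ : ℚ) :
    SA (closure (rl {y : Fin 3 → ℚ | ∑ j, (a j : ℚ) * y j ^ 2 = κ})) := by
  let g : MvPolynomial (Fin 3) ℚ := ∑ j, C (a j : ℚ) * X j ^ 2 - C κ
  have hg : g.totalDegree ≤ 3 := by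
    refine (totalDegree_sub _ _).trans (max_le ?_ ?_)
    · refine totalDegree_finsetSum_le fun j _ => ?_
      refine (totalDegree_mul _ _).trans ?_
      rw [totalDegree_C, totalDegree_X_pow]
      omega
    · rw [totalDegree_C]
      omega
  have halg : ∀ r : ℚ, IsAlgebraic ℚ (Rat.castHom ℝ r) := fun r =>
    isAlgebraic_algebraMap (R := ℚ) (A := ℝ) r
  have h1 := Pool.Agent.TH729.CC.affine_SA (Rat.castHom ℝ) halg g hg
  have h2 : {x : Fin 3 → ℝ | ∃ r : Fin 3 → ℚ, eval r g = 0 ∧ x = fun i => Rat.castHom ℝ (r i)} =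
      rl {y : Fin 3 → ℚ | ∑ j, (a j : ℚ) * y j ^ 2 = κ} := by
    ext x
    have he : ∀ r : Fin 3 → ℚ, eval r g = ∑ j, (a j : ℚ) * r j ^ 2 - κ := by
      intro r
      simp [g]
    constructor
    · rintro ⟨r, hr, rfl⟩
      rw [he, sub_eq_zero] at hr
      exact ⟨r, hr, rfl⟩
    · rintro ⟨r, hr, rfl⟩
      refine ⟨r, ?_, rfl⟩
      rw [he, sub_eq_zero]
      exact hr
  rwa [h2] at h1

/-- the rational points over one rational point of the base -/
def Over (a : Fin r → Fin 3 → ℤ) (f : Fin r → MvPolynomial (Fin m) ℚ) (t : Fin m → ℚ) :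
    Set (Pt m r ℝ) :=
  {x | ∃ y : Fin r → Fin 3 → ℚ, (∀ i, ∑ j, (a i j : ℚ) * y i j ^ 2 = eval t (f i)) ∧
    x = fun s => ((Sum.elim t (fun s => y s.1 s.2) s : ℚ) : ℝ)}

theorem sa_over (a : Fin r → Fin 3 → ℤ) (f : Fin r → MvPolynomial (Fin m) ℚ) (t : Fin m → ℚ) :
    SA (closure (Over a f t)) := by
  have h := values_main (ι := Fin r) (κ := Empty) (n := Fin 3) (m := Fin m ⊕ (Fin r × Fin 3))
    (fun i => {y : Fin 3 → ℚ | ∑ j, (a i j : ℚ) * y j ^ 2 = eval t (f i)})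
    (fun i => sa_quadric (a i) _) (Sum.elim (fun k => C (t k)) (fun s => X (Sum.inl s))) 1
  refine (congrArg SA (congrArg closure ?_)).mp h
  ext x
  constructor
  · rintro ⟨y, u, h1, -, h3⟩
    refine ⟨y, h1, funext fun s => ?_⟩
    rw [h3 s, map_one, div_one]
    rcases s with s | s
    · simp
    · simp
  · rintro ⟨y, h1, rfl⟩
    refine ⟨y, fun e => e.elim, h1, by simp, fun s => ?_⟩
    rw [map_one, div_one]
    rcases s with s | s
    · simp
    · simp

/-- one variable `t` -/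
theorem sa_line {f : Fin r → MvPolynomial (Fin 1) ℚ} (ha : ∀ i j, a i j ≠ 0) (hf : ∀ i, f i ≠ 0) :
    SA (closure (RatX a f)) := by
  classical
  refine sa_all ha ?_
  have hfin : {t : Fin 1 → ℚ | ∃ i, eval t (f i) = 0}.Finite := by
    have h1 : {t : Fin 1 → ℚ | ∃ i, eval t (f i) = 0} = ⋃ i, {t : Fin 1 → ℚ | eval t (f i) = 0} := by
      ext t
      simp
    rw [h1]
    refine Set.finite_iUnion fun i => ?_
    obtain ⟨t0, ht0⟩ : ∃ t0 : Fin 1 → ℚ, eval t0 (f i) ≠ 0 := by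
      by_contra hcon
      push Not at hcon
      exact hf i (MvPolynomial.funext fun t => by rw [hcon t, map_zero])
    exact Pool.Agent.R847.QB.fin_zeros (f i) ht0
  have h1 : RatX a f \ {x | Proper f x} = ⋃ t ∈ {t : Fin 1 → ℚ | ∃ i, eval t (f i) = 0}, Over a f t := by
    ext x
    rw [mem_iUnion₂]
    constructor
    · rintro ⟨⟨h1, z, rfl⟩, h2⟩
      have h3 : ¬ Proper f (fun s => (z s : ℝ)) := h2
      rw [proper_cast] at h3
      push Not at h3
      refine ⟨fun k => z (Sum.inl k), h3, fun i j => z (Sum.inr (i, j)), (on_cast z).1 h1, ?_⟩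
      funext s
      rcases s with s | s <;> rfl
    · rintro ⟨t, ⟨i, hi⟩, y, hy, rfl⟩
      refine ⟨⟨(on_cast (a := a) (f := f) (Sum.elim t (fun s => y s.1 s.2))).2 hy, _, rfl⟩, fun h => ?_⟩
      have h3 : Proper f (fun s => ((Sum.elim t (fun s => y s.1 s.2) s : ℚ) : ℝ)) := h
      rw [proper_cast] at h3
      exact h3 i hi
  rw [h1, hfin.closure_biUnion]
  refine SAP.congr (SAP.exists_mem hfin.toFinset (p := fun t x => x ∈ closure (Over a f t))
    fun t _ => sa_over a f t) fun x => ?_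
  constructor
  · intro h
    obtain ⟨t, ht, h⟩ := mem_iUnion₂.1 (show x ∈ ⋃ t ∈ {t : Fin 1 → ℚ | ∃ i, eval t (f i) = 0},
      closure (Over a f t) from h)
    exact ⟨t, hfin.mem_toFinset.2 ht, h⟩
  · rintro ⟨t, ht, h⟩
    exact mem_iUnion₂.2 ⟨t, hfin.mem_toFinset.1 ht, h⟩

theorem on_rat (z : Pt m r ℚ) : On a f z ↔
    ∀ i, ∑ j, (a i j : ℚ) * z (Sum.inr (i, j)) ^ 2 = eval (fun k => z (Sum.inl k)) (f i) := by
  refine forall_congr' fun i => ?_
  rw [aeval_def, Algebra.algebraMap_self]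
  rfl

/-- one equation -/
theorem sa_one (a : Fin 3 → ℤ) (ha : ∀ j, a j ≠ 0) (f : MvPolynomial (Fin m) ℚ)
    (h : SA (closure (rl {t : Fin m → ℚ | eval t f = 0}))) :
    SA (closure (RatX (fun _ : Fin 1 => a) (fun _ => f))) := by
  refine sa_all (fun _ => ha) ?_
  set D : Set (Fin 3 → ℚ) := {y : Fin 3 → ℚ | ∑ j, (a j : ℚ) * y j ^ 2 = 0} with hD
  set Z : Set (Fin m → ℚ) := {t : Fin m → ℚ | eval t f = 0} with hZ
  have hDs : SA (closure (rl D)) := sa_quadric a 0
  have h1 : closure (RatX (fun _ : Fin 1 => a) (fun _ => f) \ {x | Proper (fun _ => f) x}) =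
      {x : Pt m 1 ℝ | (fun k => x (Sum.inl k)) ∈ closure (rl Z) ∧
        (fun j => x (Sum.inr ((0 : Fin 1), j))) ∈ closure (rl D)} := by
    apply Subset.antisymm
    · refine closure_minimal ?_ (IsClosed.inter
        (isClosed_closure.preimage (by fun_prop : Continuous fun x : Pt m 1 ℝ => fun k => x (Sum.inl k)))
        (isClosed_closure.preimage
          (by fun_prop : Continuous fun x : Pt m 1 ℝ => fun j => x (Sum.inr ((0 : Fin 1), j)))))
      rintro x ⟨⟨h2, z, rfl⟩, h3⟩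
      have h4 : ¬ Proper (fun _ : Fin 1 => f) (fun s => (z s : ℝ)) := h3
      rw [proper_cast] at h4
      push Not at h4
      obtain ⟨i, hi⟩ := h4
      have h5 := (on_cast z).1 h2 0
      rw [hi] at h5
      exact ⟨subset_closure ⟨fun k => z (Sum.inl k), hi, rfl⟩,
        subset_closure ⟨fun j => z (Sum.inr (0, j)), h5, rfl⟩⟩
    · rintro x ⟨h2, h3⟩
      rw [Metric.mem_closure_iff] at h2 h3 ⊢
      intro ε hε
      obtain ⟨_, ⟨t, ht, rfl⟩, h4⟩ := h2 ε hε
      obtain ⟨_, ⟨y, hy, rfl⟩, h5⟩ := h3 ε hε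
      rw [dist_pi_lt_iff hε] at h4 h5
      let w : Pt m 1 ℚ := Sum.elim t (fun s => y s.2)
      refine ⟨fun s => (w s : ℝ), ⟨⟨(on_cast w).2 fun i => ?_, w, rfl⟩, fun hp => ?_⟩, ?_⟩
      · have h6 : ∑ j, (a j : ℚ) * y j ^ 2 = 0 := hy
        have h7 : eval t f = 0 := ht
        show ∑ j, (a j : ℚ) * y j ^ 2 = eval t f
        rw [h6, h7]
      · have h7 : eval t f = 0 := ht
        exact (proper_cast w).1 hp 0 h7
      · rw [dist_pi_lt_iff hε]
        rintro (k | ⟨i, j⟩)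
        · exact h4 k
        · have hi : i = 0 := Subsingleton.elim _ _
          subst hi
          exact h5 j
  rw [h1]
  exact SAP.and (SAP.preimage (p := fun v => v ∈ closure (rl Z)) h (fun i => PF.coord _))
    (SAP.preimage (p := fun v => v ∈ closure (rl D)) hDs (fun i => PF.coord _))

/-- Semialgebraic sets defined over `ℚ`: the finite unions of sets `{p = 0, q₁ > 0, …, q_k > 0}`, where `p` and the `qᵢ`
are polynomials with rational coefficients. The coordinates are indexed by `I`. -/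
def Semialgebraic {I : Type} (S : Set (I → ℝ)) : Prop :=
  ∃ (m : ℕ) (P : Fin m → MvPolynomial I ℚ) (G : Fin m → Finset (MvPolynomial I ℚ)),
    S = {x : I → ℝ | ∃ j : Fin m, (aeval x (P j) : ℝ) = 0 ∧ ∀ g ∈ G j, (0 : ℝ) < aeval x g}

theorem Semialgebraic.sa {I : Type} {S : Set (I → ℝ)} (h : Semialgebraic S) : SA S := by
  obtain ⟨m, P, G, rfl⟩ := h
  refine SAP.exists_fin fun j => SAP.and (SAP.eq_zero (PF.aeval (P j))) ?_
  exact SAP.forall_mem (G j) fun g _ => SAP.pos (PF.aeval g)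

theorem frozenI {I : Type} [Finite I] {S : Set (I → ℝ)} (h : SA S) : Semialgebraic S := by
  classical
  obtain ⟨n, ⟨e⟩⟩ := Finite.exists_equiv_fin I
  have h1 : SA ((fun (v : Fin n → ℝ) (i : I) => v (e i)) ⁻¹' S) :=
    SA.preimage h (fun i => PF.coord (e i))
  obtain ⟨m, P, G, hS⟩ := SA.frozen h1
  refine ⟨m, fun j => rename e.symm (P j), fun j => (G j).image (rename e.symm), ?_⟩
  ext x
  have hx : x ∈ S ↔ (fun k => x (e.symm k)) ∈ (fun (v : Fin n → ℝ) (i : I) => v (e i)) ⁻¹' S := by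
    rw [mem_preimage]
    simp
  rw [hx, hS]
  constructor
  · rintro ⟨j, h2, h3⟩
    refine ⟨j, ?_, fun g hg => ?_⟩
    · rw [aeval_rename]
      exact h2
    · obtain ⟨g', hg', rfl⟩ := Finset.mem_image.1 hg
      rw [aeval_rename]
      exact h3 g' hg'
  · rintro ⟨j, h2, h3⟩
    refine ⟨j, ?_, fun g hg => ?_⟩
    · rw [aeval_rename] at h2
      exact h2
    · have h4 := h3 _ (Finset.mem_image_of_mem _ hg)
      rw [aeval_rename] at h4
      exact h4

end Run7.h18.FO
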